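import Pool.Agent.Lib_helper79.Seg.Defs

/-!
The colouring problem for `g`-segment graphs.
-/

set_option autoImplicit false

namespace Pool.Agent.Seg

/-- The colouring problem for `g`-segment graphs: the instance `(C, k)` is a yes-instance if `C` is a
chord set, its circle graph is a `g`-segment graph, and the circle graph is `k`-colourable. -/
def SegColour (g : ℕ) (I : List (ℕ × ℕ) × ℕ) : Prop :=
  IsChordSet I.1 ∧ IsSegment g I.1 ∧ Colourable I.1 I.2

end Pool.Agent.Seg
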