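import Pool.Agent.Lib_helper79.Seg.PolyRed
import Pool.Agent.Lib_helper79.Seg.Problem
import Pool.Agent.Lib_helper79.Poly.NP

set_option autoImplicit false

namespace Pool.Agent.Poly

variable {α β γ : Type} [Rep α] [Rep β] [Rep γ]

lemma PolyTime.all {f : α → List β} {g : α → β → Bool} (hf : PolyTime f)
    (hg : PolyTime (fun p : α × β => g p.1 p.2)) : PolyTime (fun x => (f x).all (g x)) := by
  have : (fun x => (f x).all (g x)) =
      fun x => !decide (0 < ((f x).filter fun b => !(g x b)).length) := by
    funext x
    induction f x with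
    | nil => rfl
    | cons b l ih =>
      rw [List.all_cons, List.filter_cons, ih]
      cases g x b <;> simp
  rw [this]
  apply PolyTime.not
  apply PolyTime.isPos
  apply PolyTime.length
  exact PolyTime.filter hf hg.not

lemma PolyTime.any {f : α → List β} {g : α → β → Bool} (hf : PolyTime f)
    (hg : PolyTime (fun p : α × β => g p.1 p.2)) : PolyTime (fun x => (f x).any (g x)) := by
  have : (fun x => (f x).any (g x)) = fun x => !((f x).all fun b => !(g x b)) := by
    funext x
    simp [List.all_eq_not_any_not]
  rw [this]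
  exact PolyTime.not (hf.all hg.not)

end Pool.Agent.Poly

namespace Pool.Agent.Seg

open Pool.Agent.Poly List

/-- The bound on all numbers of an instance. -/
def bnd (I : List (ℕ × ℕ) × ℕ) : ℕ := (I.1.flatMap fun c => replicate (c.1 + c.2) (0 : ℕ)).length + I.2

/-- The number stored in block `j` of the certificate. -/
def numb (w : List Bool) (L j : ℕ) : ℕ := ((range L).filter fun p => w.getD (j * L + p) false).length

/-- The test. -/
def verify (g : ℕ) (p : (List (ℕ × ℕ) × ℕ) × List Bool) : Bool :=
  (p.1.1.all fun c => decide (c.1 < c.2)) &&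
  ((range (p.1.1.flatMap fun c => [c.1, c.2]).length).all fun i =>
    (range (p.1.1.flatMap fun c => [c.1, c.2]).length).all fun j =>
      (decide (i = j)) || !(decide ((p.1.1.flatMap fun c => [c.1, c.2]).getD i 0 =
        (p.1.1.flatMap fun c => [c.1, c.2]).getD j 0))) &&
  (p.1.1.all fun c => (range (g - 1)).any fun i =>
    decide (c.1 ≤ numb p.2 (bnd p.1) i) && decide (numb p.2 (bnd p.1) i < c.2)) &&
  ((range p.1.1.length).all fun i => decide (numb p.2 (bnd p.1) (g - 1 + i) < p.1.2)) &&
  ((range p.1.1.length).all fun i => (range p.1.1.length).all fun j =>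
    !(decide ((p.1.1.getD i (0, 0)).1 < (p.1.1.getD j (0, 0)).1) &&
      decide ((p.1.1.getD j (0, 0)).1 < (p.1.1.getD i (0, 0)).2) &&
      decide ((p.1.1.getD i (0, 0)).2 < (p.1.1.getD j (0, 0)).2)) ||
    !(decide (numb p.2 (bnd p.1) (g - 1 + i) = numb p.2 (bnd p.1) (g - 1 + j))))

variable {α : Type} [Rep α]

lemma pt_bnd {I : α → List (ℕ × ℕ) × ℕ} (hI : PolyTime I) : PolyTime (fun x => bnd (I x)) := by
  unfold bnd
  apply PolyTime.add
  · apply PolyTime.length
    apply PolyTime.flatMap (by fun_prop)
    fun_prop
  · fun_prop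

lemma pt_numb {w : α → List Bool} {L j : α → ℕ} (hw : PolyTime w) (hL : PolyTime L)
    (hj : PolyTime j) : PolyTime (fun x => numb (w x) (L x) (j x)) := by
  unfold numb
  apply PolyTime.length
  apply PolyTime.filter (by fun_prop)
  fun_prop

lemma pt_verify (g : ℕ) : PolyTime (verify g) := by
  have hends : ∀ {β : Type} [Rep β] {C : β → List (ℕ × ℕ)}, PolyTime C →
      PolyTime (fun x => (C x).flatMap fun c => [c.1, c.2]) := by
    intro β _ C hC
    apply PolyTime.flatMap hC
    fun_prop
  unfold verify
  refine PolyTime.and (PolyTime.and (PolyTime.and (PolyTime.and ?_ ?_) ?_) ?_) ?_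
  · exact PolyTime.all (by fun_prop) (PolyTime.lt (by fun_prop) (by fun_prop))
  · apply PolyTime.all
    · exact PolyTime.range (PolyTime.length (hends (by fun_prop)))
    · apply PolyTime.all
      · exact PolyTime.range (PolyTime.length (hends (by fun_prop)))
      · apply PolyTime.or
        · exact PolyTime.natEq (by fun_prop) (by fun_prop)
        · apply PolyTime.not
          apply PolyTime.natEq
          · exact PolyTime.getD (hends (by fun_prop)) (by fun_prop) (by fun_prop)
          · exact PolyTime.getD (hends (by fun_prop)) (by fun_prop) (by fun_prop)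
  · apply PolyTime.all (by fun_prop)
    apply PolyTime.any (by fun_prop)
    apply PolyTime.and
    · exact PolyTime.le (by fun_prop) (pt_numb (by fun_prop) (pt_bnd (by fun_prop)) (by fun_prop))
    · exact PolyTime.lt (pt_numb (by fun_prop) (pt_bnd (by fun_prop)) (by fun_prop)) (by fun_prop)
  · apply PolyTime.all (by fun_prop)
    exact PolyTime.lt (pt_numb (by fun_prop) (pt_bnd (by fun_prop)) (by fun_prop)) (by fun_prop)
  · apply PolyTime.all (by fun_prop)
    apply PolyTime.all (by fun_prop)
    apply PolyTime.or
    · apply PolyTime.not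
      apply PolyTime.and
      · apply PolyTime.and
        · exact PolyTime.lt (by fun_prop) (by fun_prop)
        · exact PolyTime.lt (by fun_prop) (by fun_prop)
      · exact PolyTime.lt (by fun_prop) (by fun_prop)
    · apply PolyTime.not
      exact PolyTime.natEq (pt_numb (by fun_prop) (pt_bnd (by fun_prop)) (by fun_prop))
        (pt_numb (by fun_prop) (pt_bnd (by fun_prop)) (by fun_prop))

/-! ### Correctness -/

lemma size_rep_nat (n : ℕ) : (rep n).size = 2 * n + 1 := by
  induction n with
  | zero => rfl
  | succ n ih =>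
    rw [rep_succ]
    simp only [Tr.size]
    omega

lemma size_rep_chords (C : List (ℕ × ℕ)) : C.length ≤ (rep C).size ∧
    (C.flatMap fun c => replicate (c.1 + c.2) (0 : ℕ)).length ≤ (rep C).size := by
  induction C with
  | nil => simp
  | cons c C ih =>
    rw [rep_cons, rep_pair, length_cons, flatMap_cons, length_append, length_replicate]
    simp only [Tr.size, size_rep_nat]
    omega

lemma bnd_le (I : List (ℕ × ℕ) × ℕ) : bnd I ≤ (rep I).size ∧ I.1.length ≤ (rep I).size := by
  obtain ⟨C, k⟩ := I
  have h := size_rep_chords C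
  have h2 := size_rep_nat k
  rw [rep_pair]
  unfold bnd
  simp only [Tr.size]
  omega

lemma le_bnd (I : List (ℕ × ℕ) × ℕ) (c : ℕ × ℕ) (hc : c ∈ I.1) : c.1 ≤ bnd I ∧ c.2 ≤ bnd I := by
  obtain ⟨C, k⟩ := I
  simp only at hc
  have : c.1 + c.2 ≤ (C.flatMap fun c => replicate (c.1 + c.2) (0 : ℕ)).length := by
    induction C with
    | nil => simp at hc
    | cons a C ih =>
      rw [flatMap_cons, length_append, length_replicate]
      rcases mem_cons.1 hc with rfl | h
      · omega
      · have := ih h
        omega
  unfold bnd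
  simp only
  omega

lemma numb_map (L m : ℕ) (val : ℕ → ℕ) (j : ℕ) (hj : j < m) (hv : val j ≤ L) :
    numb ((range (m * L)).map fun q => decide (q % L < val (q / L))) L j = val j := by
  unfold numb
  have h1 : ((range L).filter fun p => ((range (m * L)).map fun q =>
      decide (q % L < val (q / L))).getD (j * L + p) false) =
      (range L).filter fun p => decide (p < val j) := by
    apply filter_congr
    intro p hp
    rw [mem_range] at hp
    have h2 : j * L + p < m * L := by
      have : (j + 1) * L ≤ m * L := Nat.mul_le_mul_right _ hj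
      rw [Nat.succ_mul] at this
      omega
    have h3 : (j * L + p) % L = p := by
      rw [Nat.mul_comm, Nat.mul_add_mod, Nat.mod_eq_of_lt hp]
    have h4 : (j * L + p) / L = j := by
      rw [Nat.mul_comm, Nat.mul_add_div (by omega), Nat.div_eq_of_lt hp, Nat.add_zero]
    rw [getD_eq_getElem _ _ (by rw [length_map, length_range]; exact h2), getElem_map,
      getElem_range, h3, h4]
  rw [h1]
  have h5 : ∀ n v, v ≤ n → ((range n).filter fun p => decide (p < v)).length = v := by
    intro n
    induction n with
    | zero => intro v hv; simp; omega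
    | succ n ih =>
      intro v hv
      rw [range_succ, filter_append, length_append]
      rcases Nat.lt_or_ge n v with h | h
      · have hv' : v = n + 1 := by omega
        subst hv'
        have : ((range n).filter fun p => decide (p < n + 1)) = range n := by
          rw [filter_eq_self]
          intro p hp
          rw [mem_range] at hp
          simp
          omega
        rw [this]
        simp
      · rw [ih v h]
        have : ¬ n < v := by omega
        simp [this]
  exact h5 L (val j) hv

lemma verify_iff (g : ℕ) (C : List (ℕ × ℕ)) (k : ℕ) (w : List Bool) :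
    verify g ((C, k), w) = true ↔
      (∀ c ∈ C, c.1 < c.2) ∧ (C.flatMap fun c => [c.1, c.2]).Nodup ∧
      (∀ c ∈ C, ∃ i < g - 1, c.1 ≤ numb w (bnd (C, k)) i ∧ numb w (bnd (C, k)) i < c.2) ∧
      (∀ i < C.length, numb w (bnd (C, k)) (g - 1 + i) < k) ∧
      (∀ i < C.length, ∀ j < C.length, (C.getD i (0, 0)).1 < (C.getD j (0, 0)).1 →
        (C.getD j (0, 0)).1 < (C.getD i (0, 0)).2 → (C.getD i (0, 0)).2 < (C.getD j (0, 0)).2 →
        numb w (bnd (C, k)) (g - 1 + i) ≠ numb w (bnd (C, k)) (g - 1 + j)) := by
  unfold verify
  simp only [Bool.and_eq_true, all_eq_true, any_eq_true, mem_range, decide_eq_true_eq,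
    Bool.or_eq_true, Bool.not_eq_true', decide_eq_false_iff_not]
  have h1 : (∀ x < (C.flatMap fun c => [c.1, c.2]).length,
      ∀ y < (C.flatMap fun c => [c.1, c.2]).length,
        x = y ∨ ¬ (C.flatMap fun c => [c.1, c.2]).getD x 0 =
          (C.flatMap fun c => [c.1, c.2]).getD y 0) ↔
      (C.flatMap fun c => [c.1, c.2]).Nodup := by
    set l := C.flatMap fun c => [c.1, c.2]
    rw [nodup_iff_injective_getElem]
    constructor
    · intro h i j hij
      rcases h i.1 i.2 j.1 j.2 with h' | h'
      · exact Fin.ext h'
      · exfalso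
        apply h'
        rw [getD_eq_getElem _ _ i.2, getD_eq_getElem _ _ j.2]
        exact hij
    · intro h x hx y hy
      by_cases hxy : x = y
      · exact Or.inl hxy
      · right
        intro h'
        rw [getD_eq_getElem _ _ hx, getD_eq_getElem _ _ hy] at h'
        have := @h ⟨x, hx⟩ ⟨y, hy⟩ h'
        exact hxy (by simpa using this)
  have h2 : (∀ x < C.length, ∀ y < C.length,
      ((decide ((C.getD x (0, 0)).1 < (C.getD y (0, 0)).1) &&
        decide ((C.getD y (0, 0)).1 < (C.getD x (0, 0)).2) &&
        decide ((C.getD x (0, 0)).2 < (C.getD y (0, 0)).2)) = false ∨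
        ¬ numb w (bnd (C, k)) (g - 1 + x) = numb w (bnd (C, k)) (g - 1 + y))) ↔
      (∀ i < C.length, ∀ j < C.length, (C.getD i (0, 0)).1 < (C.getD j (0, 0)).1 →
        (C.getD j (0, 0)).1 < (C.getD i (0, 0)).2 → (C.getD i (0, 0)).2 < (C.getD j (0, 0)).2 →
        numb w (bnd (C, k)) (g - 1 + i) ≠ numb w (bnd (C, k)) (g - 1 + j)) := by
    constructor
    · intro h i hi j hj a1 a2 a3
      rcases h i hi j hj with h' | h'
      · simp only [a1, a2, a3, decide_true, Bool.and_self] at h'
        cases h'
      · exact h'
    · intro h i hi j hj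
      by_cases a1 : (C.getD i (0, 0)).1 < (C.getD j (0, 0)).1
      · by_cases a2 : (C.getD j (0, 0)).1 < (C.getD i (0, 0)).2
        · by_cases a3 : (C.getD i (0, 0)).2 < (C.getD j (0, 0)).2
          · exact Or.inr (h i hi j hj a1 a2 a3)
          · left
            rw [decide_eq_false a3, Bool.and_false]
        · left
          rw [decide_eq_false a2, Bool.and_false, Bool.false_and]
      · left
        rw [decide_eq_false a1, Bool.false_and, Bool.false_and]
  rw [h1, h2]
  simp only [and_assoc]

theorem segColour_inNP (g : ℕ) : InNP (SegColour g) := by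
  refine ⟨g + 2, verify g, pt_verify g, ?_⟩
  rintro ⟨C, k⟩
  simp only [verify_iff]
  constructor
  · rintro ⟨⟨h1, h2⟩, ⟨e, he⟩, f, hf1, hf2⟩
    simp only at h1 h2 he hf1 hf2
    set L := bnd (C, k) with hL
    set val : ℕ → ℕ := fun i => if h : i < g - 1 then min ⌊e ⟨i, h⟩⌋₊ L else
      min (f (C.getD (i - (g - 1)) (0, 0))) L with hval
    have hvL : ∀ i, val i ≤ L := by
      intro i
      simp only [hval]
      split_ifs
      · exact min_le_right _ _
      · exact min_le_right _ _
    set m := g - 1 + C.length with hm
    have hnum : ∀ j < m, numb ((range (m * L)).map fun q => decide (q % L < val (q / L))) L j =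
        val j := fun j hj => numb_map L m val j hj (hvL j)
    have hkL : k ≤ L := by
      rw [hL]
      unfold bnd
      simp
    have hcol : ∀ i < C.length, val (g - 1 + i) = f (C.getD i (0, 0)) := by
      intro i hi
      have hn : ¬ g - 1 + i < g - 1 := by omega
      simp only [hval, hn, dif_neg, not_false_eq_true]
      have h3 : g - 1 + i - (g - 1) = i := by omega
      rw [h3]
      apply min_eq_left
      have h4 : C.getD i (0, 0) ∈ C := by
        rw [getD_eq_getElem _ _ hi]
        exact getElem_mem _
      have := hf1 _ h4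
      omega
    refine ⟨(range (m * L)).map fun q => decide (q % L < val (q / L)), ?_, h1, h2, ?_, ?_, ?_⟩
    · rw [length_map, length_range]
      have b1 := bnd_le (C, k)
      simp only at b1
      rw [← hL] at b1
      set s := (rep (C, k)).size with hs
      have b2 : m ≤ (s + 2) ^ (g + 1) := by
        have b3 : g + 1 ≤ 2 ^ g := Nat.lt_two_pow_self
        have b4 : 2 ^ g ≤ (s + 2) ^ g := Nat.pow_le_pow_left (by omega) g
        have b5 : (g + 1) * (s + 2) ≤ (s + 2) ^ g * (s + 2) := Nat.mul_le_mul_right _ (b3.trans b4)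
        rw [pow_succ]
        have b6 : g + s ≤ (g + 1) * (s + 2) := by nlinarith
        omega
      have b7 : L ≤ s + 2 := by omega
      calc m * L ≤ (s + 2) ^ (g + 1) * (s + 2) := Nat.mul_le_mul b2 b7
        _ = (s + 2) ^ (g + 2) := (pow_succ _ _).symm
    · intro c hc
      obtain ⟨i, hi1, hi2⟩ := he c hc
      have hlt := h1 c hc
      have hb := le_bnd (C, k) c hc
      rw [← hL] at hb
      refine ⟨i.1, i.2, ?_⟩
      rw [hnum i.1 (by omega)]
      simp only [hval, i.2, dif_pos]
      constructor
      · rw [le_min_iff]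
        exact ⟨Nat.le_floor hi1.le, hb.1⟩
      · apply lt_of_le_of_lt (min_le_left _ _)
        rw [Nat.floor_lt (by
          have : (0 : ℝ) ≤ c.1 := Nat.cast_nonneg _
          linarith)]
        exact hi2
    · intro i hi
      rw [hnum _ (by omega), hcol i hi]
      apply hf1
      rw [getD_eq_getElem _ _ hi]
      exact getElem_mem _
    · intro i hi j hj a1 a2 a3
      rw [hnum _ (by omega), hnum _ (by omega), hcol i hi, hcol j hj]
      apply hf2
      · rw [getD_eq_getElem _ _ hi]
        exact getElem_mem _
      · rw [getD_eq_getElem _ _ hj]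
        exact getElem_mem _
      · exact Or.inl ⟨a1, a2, a3⟩
  · rintro ⟨w, _, h1, h2, h3, h4, h5⟩
    refine ⟨⟨h1, h2⟩, ?_, ?_⟩
    · refine ⟨fun i => (numb w (bnd (C, k)) i.1 : ℝ) + 1 / 2, fun c hc => ?_⟩
      obtain ⟨i, hi, hi1, hi2⟩ := h3 c hc
      refine ⟨⟨i, hi⟩, ?_, ?_⟩
      · have : (c.1 : ℝ) ≤ numb w (bnd (C, k)) i := by exact_mod_cast hi1
        linarith
      · have : (numb w (bnd (C, k)) i : ℝ) + 1 ≤ c.2 := by exact_mod_cast hi2
        linarith
    · have hidx : ∀ c ∈ C, C.idxOf c < C.length ∧ C.getD (C.idxOf c) (0, 0) = c := by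
        intro c hc
        have := idxOf_lt_length_of_mem hc
        refine ⟨this, ?_⟩
        rw [getD_eq_getElem _ _ this]
        exact getElem_idxOf this
      refine ⟨fun c => numb w (bnd (C, k)) (g - 1 + C.idxOf c), ?_, ?_⟩
      · intro c hc
        exact h4 _ (hidx c hc).1
      · intro c hc d hd hcr
        have ic := hidx c hc
        have id := hidx d hd
        rcases hcr with ⟨a1, a2, a3⟩ | ⟨a1, a2, a3⟩
        · apply h5 _ ic.1 _ id.1 <;> rw [ic.2, id.2] <;> assumption
        · apply Ne.symm
          apply h5 _ id.1 _ ic.1 <;> rw [ic.2, id.2] <;> assumption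

/-! ### The reduction from exact cover -/

lemma isSegment_mono {g h : ℕ} (hgh : g ≤ h) (hg : 2 ≤ g) {C : List (ℕ × ℕ)} (H : IsSegment g C) :
    IsSegment h C := by
  obtain ⟨e, he⟩ := H
  refine ⟨fun i => if hi : i.1 < g - 1 then e ⟨i.1, hi⟩ else 0, fun c hc => ?_⟩
  obtain ⟨i, hi⟩ := he c hc
  refine ⟨⟨i.1, by omega⟩, ?_⟩
  simpa using hi

theorem exactCover_reduces (g : ℕ) (hg : 3 ≤ g) : Reduces ExactCover (SegColour g) := by
  refine ⟨fun I => (sysChords I.2.length I.1 (fun v c => (I.2.getD v []).getD c false) (fun _ => 1),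
    sysK I.2.length I.1 (fun v c => (I.2.getD v []).getD c false)), ?_, ?_⟩
  · have hinc : PolyTime (fun p : (ℕ × List (List Bool)) × ℕ × ℕ =>
        (p.1.2.getD p.2.1 []).getD p.2.2 false) := by fun_prop
    have h1 : PolyTime (fun I : ℕ × List (List Bool) => I.2.length) := by fun_prop
    have h2 : PolyTime (fun I : ℕ × List (List Bool) => I.1) := by fun_prop
    have h3 : PolyTime (fun p : (ℕ × List (List Bool)) × ℕ => 1) := by fun_prop
    exact PolyTime.pair
      (pt_sysChords (α := ℕ × List (List Bool)) (n := fun I => I.2.length) (M := fun I => I.1)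
        (inc := fun I v c => (I.2.getD v []).getD c false) (r := fun _ _ => 1) h1 h2 hinc h3)
      (pt_sysK (α := ℕ × List (List Bool)) (n := fun I => I.2.length) (M := fun I => I.1)
        (inc := fun I v c => (I.2.getD v []).getD c false) h1 h2 hinc)
  · rintro ⟨M, S⟩
    have key := sysChords_iff (n := S.length) (M := M) (inc := fun v c => (S.getD v []).getD c false)
      (r := fun _ => 1) (fun c _ => by omega)
    unfold SegColour
    simp only
    have hseg := isSegment_mono hg (by norm_num) key.2.1
    rw [and_iff_right key.1, and_iff_right hseg, key.2.2]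
    unfold ExactCover
    simp only
    have one : ∀ (p : ℕ → Bool) (n : ℕ), ((range n).filter p).length = 1 ↔
        ∃! v, v < n ∧ p v = true := by
      intro p n
      rw [length_eq_one_iff]
      constructor
      · rintro ⟨v, hv⟩
        have h1 : v ∈ (range n).filter p := by rw [hv]; simp
        rw [mem_filter, mem_range] at h1
        refine ⟨v, h1, ?_⟩
        intro v' hv'
        have h2 : v' ∈ (range n).filter p := by rw [mem_filter, mem_range]; exact hv'
        rw [hv] at h2
        simpa using h2
      · rintro ⟨v, hv, hu⟩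
        refine ⟨v, ?_⟩
        have nd : ((range n).filter p).Nodup := nodup_range.filter _
        have h1 : v ∈ (range n).filter p := by rw [mem_filter, mem_range]; exact hv
        have h2 : ∀ v' ∈ (range n).filter p, v' = v := by
          intro v' hv'
          rw [mem_filter, mem_range] at hv'
          exact hu v' hv'
        have h3 := eq_replicate_of_mem h2
        have h4 : ((range n).filter p).length ≤ 1 := by
          by_contra hcon
          rw [h3] at nd
          rw [nodup_replicate] at nd
          omega
        have h5 : 0 < ((range n).filter p).length := length_pos_of_mem h1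
        have h6 : ((range n).filter p).length = 1 := by omega
        rw [h3, h6]
        rfl
    simp only [one]
    constructor
    · rintro ⟨X, hX⟩
      classical
      refine ⟨fun v => decide (X v), fun c hc => ?_⟩
      obtain ⟨v, ⟨h1, h2, h3⟩, h4⟩ := hX c hc
      refine ⟨v, ⟨h1, by simp [h2, h3] at *; exact h3⟩, ?_⟩
      rintro v' ⟨h5, h6⟩
      rw [Bool.and_eq_true, decide_eq_true_eq] at h6
      exact h4 v' ⟨h5, h6.2, h6.1⟩
    · rintro ⟨X, hX⟩
      refine ⟨fun v => X v = true, fun c hc => ?_⟩
      obtain ⟨v, ⟨h1, h2⟩, h4⟩ := hX c hc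
      rw [Bool.and_eq_true] at h2
      refine ⟨v, ⟨h1, h2.2, h2.1⟩, ?_⟩
      rintro v' ⟨h5, h6, h7⟩
      exact h4 v' ⟨h5, by rw [Bool.and_eq_true]; exact ⟨h7, h6⟩⟩

end Pool.Agent.Seg
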