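import Pool.Agent.Lib_helper79.Seg.Red
import Pool.Agent.Lib_helper79.Poly.Basic

set_option autoImplicit false

namespace Pool.Agent.Poly

variable {α β γ : Type} [Rep α] [Rep β] [Rep γ]

@[fun_prop]
lemma PolyTime.mod {f g : α → ℕ} (hf : PolyTime f) (hg : PolyTime g) :
    PolyTime (fun x => f x % g x) := by
  have : (fun x => f x % g x) = fun x => f x - g x *
      ((List.range (f x)).filter (fun i => decide ((i + 1) * g x ≤ f x))).length := by
    funext x
    rcases Nat.eq_zero_or_pos (g x) with h | h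
    · simp [h]
    · have h1 : ((List.range (f x)).filter (fun i => decide ((i + 1) * g x ≤ f x))).length =
          f x / g x := by
        have h2 : ∀ n, ((List.range n).filter (fun i => decide ((i + 1) * g x ≤ f x))).length =
            min n (f x / g x) := by
          intro n
          induction n with
          | zero => simp
          | succ n ih =>
            rw [List.range_succ, List.filter_append, List.length_append, ih]
            by_cases h3 : (n + 1) * g x ≤ f x
            · have h4 : n + 1 ≤ f x / g x := (Nat.le_div_iff_mul_le h).2 h3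
              simp [h3]
              omega
            · have h4 : ¬ n + 1 ≤ f x / g x := fun h5 => h3 ((Nat.le_div_iff_mul_le h).1 h5)
              simp [h3]
              omega
        rw [h2]
        exact min_eq_right (Nat.div_le_self _ _)
      rw [h1]
      have := Nat.div_add_mod (f x) (g x)
      omega
  rw [this]
  apply PolyTime.sub hf
  apply PolyTime.mul hg
  apply PolyTime.length
  apply PolyTime.filter (PolyTime.range hf)
  apply PolyTime.le
  · fun_prop
  · fun_prop

end Pool.Agent.Poly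

namespace Pool.Agent.Seg

open Pool.Agent.Poly List

variable {α : Type} [Rep α]

lemma pt_inc {inc : α → ℕ → ℕ → Bool} (hinc : PolyTime (fun p : α × ℕ × ℕ => inc p.1 p.2.1 p.2.2))
    {β : Type} [Rep β] {c : β → α} {v w : β → ℕ} (hc : PolyTime c) (hv : PolyTime v)
    (hw : PolyTime w) : PolyTime (fun x => inc (c x) (v x) (w x)) :=
  PolyTime.comp (f := fun q : α × ℕ × ℕ => inc q.1 q.2.1 q.2.2) (g := fun p => (c p, v p, w p))
    hinc (by fun_prop)

lemma pt_lab {n M : α → ℕ} {inc : α → ℕ → ℕ → Bool} (hn : PolyTime n) (hM : PolyTime M)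
    (hinc : PolyTime (fun p : α × ℕ × ℕ => inc p.1 p.2.1 p.2.2)) :
    PolyTime (fun x => lab (n x) (M x) (inc x)) := by
  unfold lab
  apply PolyTime.append
  · apply PolyTime.flatMap (by fun_prop)
    apply PolyTime.flatMap (by fun_prop)
    apply PolyTime.append (by fun_prop)
    apply PolyTime.ite
    · exact PolyTime.dEqTrue (pt_inc hinc (by fun_prop) (by fun_prop) (by fun_prop))
    · fun_prop
    · fun_prop
  · apply PolyTime.map (by fun_prop)
    fun_prop

lemma pt_lP {M : α → ℕ} {l : α → ℕ × ℕ × ℕ} (hM : PolyTime M) (hl : PolyTime l) :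
    PolyTime (fun x => lP (M x) (l x)) := by
  unfold lP
  apply PolyTime.ite
  · exact PolyTime.natEq (by fun_prop) (by fun_prop)
  · fun_prop
  · apply PolyTime.ite
    · exact PolyTime.dOr (PolyTime.natEq (by fun_prop) (by fun_prop))
        (PolyTime.natEq (by fun_prop) (by fun_prop))
    · fun_prop
    · fun_prop

lemma pt_lQ {β : Type} [Rep β] {inc : α → ℕ → ℕ → Bool}
    (hinc : PolyTime (fun p : α × ℕ × ℕ => inc p.1 p.2.1 p.2.2))
    {c : β → α} {l : β → ℕ × ℕ × ℕ} (hc : PolyTime c) (hl : PolyTime l) :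
    PolyTime (fun x => lQ (inc (c x)) (l x)) := by
  unfold lQ
  apply PolyTime.ite
  · refine PolyTime.dOr (PolyTime.natEq (by fun_prop) (by fun_prop))
      (PolyTime.dAnd (PolyTime.natEq (by fun_prop) (by fun_prop)) ?_)
    exact PolyTime.dEqTrue (pt_inc hinc (by fun_prop) (by fun_prop) (by fun_prop))
  · fun_prop
  · fun_prop

lemma pt_lm {l : α → ℕ × ℕ × ℕ} (hl : PolyTime l) : PolyTime (fun x => lm (l x)) := by
  unfold lm
  apply PolyTime.ite
  · exact PolyTime.natEq (by fun_prop) (by fun_prop)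
  · fun_prop
  · apply PolyTime.ite
    · exact PolyTime.dOr (PolyTime.natEq (by fun_prop) (by fun_prop))
        (PolyTime.natEq (by fun_prop) (by fun_prop))
    · fun_prop
    · fun_prop

lemma pt_deg {β : Type} [Rep β] {inc : α → ℕ → ℕ → Bool}
    (hinc : PolyTime (fun p : α × ℕ × ℕ => inc p.1 p.2.1 p.2.2))
    {c : β → α} {n j : β → ℕ} (hc : PolyTime c) (hn : PolyTime n) (hj : PolyTime j) :
    PolyTime (fun x => deg (n x) (inc (c x)) (j x)) := by
  unfold deg
  apply PolyTime.length
  apply PolyTime.filter (by fun_prop)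
  exact pt_inc hinc (by fun_prop) (by fun_prop) (by fun_prop)

lemma pt_base {n M : α → ℕ} {inc : α → ℕ → ℕ → Bool} {r : α → ℕ → ℕ} (hn : PolyTime n)
    (hM : PolyTime M) (hinc : PolyTime (fun p : α × ℕ × ℕ => inc p.1 p.2.1 p.2.2))
    (hr : PolyTime (fun p : α × ℕ => r p.1 p.2)) :
    PolyTime (fun x => base (n x) (M x) (inc x) (r x)) := by
  unfold base
  apply PolyTime.append
  · apply PolyTime.flatMap (by fun_prop)
    apply PolyTime.flatMap (by fun_prop)
    fun_prop
  · apply PolyTime.flatMap (by fun_prop)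
    apply PolyTime.append
    · exact PolyTime.replicate hr (by fun_prop)
    · apply PolyTime.replicate
      · apply PolyTime.sub
        · have := pt_deg hinc (c := fun p : α × ℕ => p.1) (n := fun p : α × ℕ => n p.1)
            (j := fun p : α × ℕ => p.2) (by fun_prop) (by fun_prop) (by fun_prop)
          fun_prop
        · exact hr
      · fun_prop

lemma pt_cols {m : α → ℕ} (hm : PolyTime m) : PolyTime (fun x => cols (m x)) := by
  unfold cols
  apply PolyTime.ite
  · exact PolyTime.natEq (by fun_prop) (by fun_prop)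
  · fun_prop
  · apply PolyTime.ite
    · exact PolyTime.natEq (by fun_prop) (by fun_prop)
    · fun_prop
    · fun_prop

lemma pt_num {n M : α → ℕ} {l : α → ℕ × ℕ × ℕ} (hn : PolyTime n) (hM : PolyTime M)
    (hl : PolyTime l) : PolyTime (fun x => num (n x) (M x) (l x)) := by
  unfold num
  fun_prop

lemma pt_sysU {n M : α → ℕ} {inc : α → ℕ → ℕ → Bool} (hn : PolyTime n)
    (hM : PolyTime M) (hinc : PolyTime (fun p : α × ℕ × ℕ => inc p.1 p.2.1 p.2.2)) :
    PolyTime (fun x => sysU (n x) (M x) (inc x)) := by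
  unfold sysU gU
  apply PolyTime.map
  · apply PolyTime.flatMap (pt_lab hn hM hinc)
    have h1 := pt_lP (M := fun p : α × ℕ × ℕ × ℕ => M p.1) (l := fun p => p.2) (by fun_prop)
      (by fun_prop)
    have h2 := pt_lQ hinc (c := fun p : α × ℕ × ℕ × ℕ => p.1) (l := fun p => p.2) (by fun_prop)
      (by fun_prop)
    simp only [id]
    fun_prop
  · exact PolyTime.pair (pt_num (by fun_prop) (by fun_prop) (by fun_prop))
      (pt_num (by fun_prop) (by fun_prop) (by fun_prop))

lemma pt_gV {n M : α → ℕ} {inc : α → ℕ → ℕ → Bool} {r : α → ℕ → ℕ} (hn : PolyTime n)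
    (hM : PolyTime M) (hinc : PolyTime (fun p : α × ℕ × ℕ => inc p.1 p.2.1 p.2.2))
    (hr : PolyTime (fun p : α × ℕ => r p.1 p.2)) :
    PolyTime (fun x => gV (lab (n x) (M x) (inc x)) id lm (base (n x) (M x) (inc x) (r x))) := by
  unfold gV
  apply PolyTime.append
  · apply PolyTime.flatMap (pt_lab hn hM hinc)
    apply PolyTime.map
    · exact pt_cols (pt_lm (by fun_prop))
    · simp only [id]
      fun_prop
  · exact pt_base hn hM hinc hr

lemma pt_sysV {n M : α → ℕ} {inc : α → ℕ → ℕ → Bool} {r : α → ℕ → ℕ} (hn : PolyTime n)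
    (hM : PolyTime M) (hinc : PolyTime (fun p : α × ℕ × ℕ => inc p.1 p.2.1 p.2.2))
    (hr : PolyTime (fun p : α × ℕ => r p.1 p.2)) :
    PolyTime (fun x => sysV (n x) (M x) (inc x) (r x)) := by
  unfold sysV
  apply PolyTime.map (pt_gV hn hM hinc hr)
  exact PolyTime.pair (pt_num (by fun_prop) (by fun_prop) (by fun_prop)) (by fun_prop)

lemma pt_sysW {n M : α → ℕ} {inc : α → ℕ → ℕ → Bool} {r : α → ℕ → ℕ} (hn : PolyTime n)
    (hM : PolyTime M) (hinc : PolyTime (fun p : α × ℕ × ℕ => inc p.1 p.2.1 p.2.2))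
    (hr : PolyTime (fun p : α × ℕ => r p.1 p.2)) :
    PolyTime (fun x => sysW (n x) (M x) (inc x) (r x)) := by
  unfold sysW gW
  apply PolyTime.map
  · apply PolyTime.map (pt_gV hn hM hinc hr)
    unfold Prod.swap
    fun_prop
  · exact PolyTime.pair (by fun_prop) (pt_num (by fun_prop) (by fun_prop) (by fun_prop))

lemma pt_enc {B z x s i : α → ℕ} (hB : PolyTime B) (hz : PolyTime z) (hx : PolyTime x)
    (hs : PolyTime s) (hi : PolyTime i) : PolyTime (fun y => enc (B y) (z y) (x y) (s y) (i y)) := by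
  unfold enc
  fun_prop

lemma pt_own {B m p q e t : α → ℕ} (hB : PolyTime B) (hm : PolyTime m) (hp : PolyTime p)
    (hq : PolyTime q) (he : PolyTime e) (ht : PolyTime t) :
    PolyTime (fun y => own (B y) (m y) (p y) (q y) (e y) (t y)) := by
  unfold own
  apply pt_enc hB (by fun_prop) ht _ he
  apply PolyTime.ite (PolyTime.le (by fun_prop) (by fun_prop)) (by fun_prop) (by fun_prop)

lemma pt_oth {B N m p q e t : α → ℕ} (hB : PolyTime B) (hN : PolyTime N) (hm : PolyTime m)
    (hp : PolyTime p) (hq : PolyTime q) (he : PolyTime e) (ht : PolyTime t) :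
    PolyTime (fun y => oth (B y) (N y) (m y) (p y) (q y) (e y) (t y)) := by
  unfold oth
  apply PolyTime.ite (PolyTime.le (by fun_prop) (by fun_prop))
  · exact pt_enc hB (by fun_prop) (by fun_prop) (by fun_prop) he
  · exact pt_enc hB (by fun_prop) (by fun_prop) (by fun_prop) he

lemma pt_ch {B N m p q e t : α → ℕ} (hB : PolyTime B) (hN : PolyTime N) (hm : PolyTime m)
    (hp : PolyTime p) (hq : PolyTime q) (he : PolyTime e) (ht : PolyTime t) :
    PolyTime (fun y => ch (B y) (N y) (m y) (p y) (q y) (e y) (t y)) := by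
  unfold ch
  apply PolyTime.ite (PolyTime.natEq (by fun_prop) (by fun_prop))
  · exact PolyTime.pair (pt_oth hB hN hm hp hq he ht) (pt_own hB hm hp hq he ht)
  · exact PolyTime.pair (pt_own hB hm hp hq he ht) (pt_oth hB hN hm hp hq he ht)

lemma pt_fam {U V W : α → List (ℕ × ℕ)} {m : α → ℕ} (hU : PolyTime U) (hV : PolyTime V)
    (hW : PolyTime W) (hm : PolyTime m) : PolyTime (fun x => fam (U x) (V x) (W x) (m x)) := by
  unfold fam
  apply PolyTime.ite (PolyTime.natEq (by fun_prop) (by fun_prop)) hU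
  exact PolyTime.ite (PolyTime.natEq (by fun_prop) (by fun_prop)) hV hW

lemma pt_segChords {X : α → ℕ} {U V W : α → List (ℕ × ℕ)} (hX : PolyTime X) (hU : PolyTime U)
    (hV : PolyTime V) (hW : PolyTime W) :
    PolyTime (fun x => segChords (X x) (U x) (V x) (W x)) := by
  unfold segChords chords trips chord
  apply PolyTime.map
  · apply PolyTime.flatMap (by fun_prop)
    apply PolyTime.flatMap (by fun_prop)
    apply PolyTime.map
    · apply PolyTime.filter (by fun_prop)
      apply PolyTime.lt
      · have := pt_fam (U := fun p : ((α × ℕ) × ℕ) × ℕ => U p.1.1.1)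
          (V := fun p : ((α × ℕ) × ℕ) × ℕ => V p.1.1.1)
          (W := fun p : ((α × ℕ) × ℕ) × ℕ => W p.1.1.1) (m := fun p => p.1.1.2)
          (by fun_prop) (by fun_prop) (by fun_prop) (by fun_prop)
        exact PolyTime.fst (PolyTime.getD this (by fun_prop) (by fun_prop))
      · fun_prop
    · fun_prop
  · have hf := pt_fam (U := fun p : α × ℕ × ℕ × ℕ => U p.1)
      (V := fun p : α × ℕ × ℕ × ℕ => V p.1)
      (W := fun p : α × ℕ × ℕ × ℕ => W p.1) (m := fun p => p.2.1)
      (by fun_prop) (by fun_prop) (by fun_prop) (by fun_prop)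
    apply pt_ch
    · fun_prop
    · fun_prop
    · fun_prop
    · exact PolyTime.fst (PolyTime.getD hf (by fun_prop) (by fun_prop))
    · exact PolyTime.snd (PolyTime.getD hf (by fun_prop) (by fun_prop))
    · fun_prop
    · fun_prop

theorem pt_sysChords {n M : α → ℕ} {inc : α → ℕ → ℕ → Bool} {r : α → ℕ → ℕ} (hn : PolyTime n)
    (hM : PolyTime M) (hinc : PolyTime (fun p : α × ℕ × ℕ => inc p.1 p.2.1 p.2.2))
    (hr : PolyTime (fun p : α × ℕ => r p.1 p.2)) :
    PolyTime (fun x => sysChords (n x) (M x) (inc x) (r x)) := by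
  unfold sysChords
  exact pt_segChords (by fun_prop) (pt_sysU hn hM hinc) (pt_sysV hn hM hinc hr)
    (pt_sysW hn hM hinc hr)

theorem pt_sysK {n M : α → ℕ} {inc : α → ℕ → ℕ → Bool} (hn : PolyTime n)
    (hM : PolyTime M) (hinc : PolyTime (fun p : α × ℕ × ℕ => inc p.1 p.2.1 p.2.2)) :
    PolyTime (fun x => sysK (n x) (M x) (inc x)) := by
  unfold sysK
  exact PolyTime.length (pt_sysU hn hM hinc)

end Pool.Agent.Seg
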