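import Mathlib

/-!
Chord sets, their circle graphs, and `g`-segment graphs. Only the order of the endpoints matters,
so the endpoints of chord sets given as inputs are natural numbers.
-/

set_option autoImplicit false

namespace Pool.Agent.Seg

/-- Two chords `(l, r)`, `(l', r')` intersect: `l < l' < r < r'` or `l' < l < r' < r`. -/
def Cross (c d : ℕ × ℕ) : Prop :=
  (c.1 < d.1 ∧ d.1 < c.2 ∧ c.2 < d.2) ∨ (d.1 < c.1 ∧ c.1 < d.2 ∧ d.2 < c.2)

/-- `C` is a chord set: every member is a pair `(l, r)` with `l < r`, and all `2 |C|` endpoints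
are pairwise distinct. -/
def IsChordSet (C : List (ℕ × ℕ)) : Prop :=
  (∀ c ∈ C, c.1 < c.2) ∧ (C.flatMap fun c => [c.1, c.2]).Nodup

/-- `C` is a `g`-segment graph: there are reals `e_1, …, e_{g-1}` such that every chord contains
at least one of them in its interior. -/
def IsSegment (g : ℕ) (C : List (ℕ × ℕ)) : Prop :=
  ∃ e : Fin (g - 1) → ℝ, ∀ c ∈ C, ∃ i, (c.1 : ℝ) < e i ∧ e i < (c.2 : ℝ)

/-- The circle graph of `C` has a colouring with the `k` colours `0, …, k - 1`, intersecting chords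
receiving different colours. -/
def Colourable (C : List (ℕ × ℕ)) (k : ℕ) : Prop :=
  ∃ f : ℕ × ℕ → ℕ, (∀ c ∈ C, f c < k) ∧ ∀ c ∈ C, ∀ d ∈ C, Cross c d → f c ≠ f d

end Pool.Agent.Seg
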