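import Mathlib

set_option autoImplicit false

namespace Pool.Agent.Seg

open Finset

lemma downclosed (N : ℕ) (p : ℕ → Prop) [DecidablePred p]
    (h : ∀ x y, 1 ≤ x → x ≤ y → y ≤ N → p y → p x) (x : ℕ) (hx : 1 ≤ x) (hxN : x ≤ N) :
    p x ↔ x ≤ ((Icc 1 N).filter p).card := by
  constructor
  · intro hp
    have : Icc 1 x ⊆ (Icc 1 N).filter p := by
      intro y hy
      rw [mem_Icc] at hy
      rw [mem_filter, mem_Icc]
      exact ⟨⟨hy.1, hy.2.trans hxN⟩, h y x hy.1 hy.2 hxN hp⟩
    simpa using card_le_card this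
  · intro hc
    by_contra hp
    have : (Icc 1 N).filter p ⊆ Icc 1 (x - 1) := by
      intro y hy
      rw [mem_filter, mem_Icc] at hy
      rw [mem_Icc]
      refine ⟨hy.1.1, ?_⟩
      by_contra hlt
      exact hp (h x y hx (by omega) hy.1.2 hy.2)
    have := card_le_card this
    simp at this
    omega

/-- The combinatorial content of a colouring. -/
structure Good (N k : ℕ) (a b : ℕ → ℕ → ℕ) (F : ℕ → ℕ → ℕ → ℕ) : Prop where
  hb : ∀ m < 3, ∀ e < k, 1 ≤ b m e
  hN : ∀ m < 3, ∀ e < k, a m e + b m e ≤ N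
  hmar : ∀ m < 3, ∀ x, ((range k).filter (fun e => a ((m + 1) % 3) e < x)).card =
    ((range k).filter (fun e => b m e < x)).card
  f0 : ∀ m < 3, ∀ e < k, ∀ t, a m e < t → t ≤ N → F m e t < k
  f1 : ∀ m < 3, ∀ e < k, ∀ e' < k, ∀ t, t ≤ N → a m e < t → a m e' < t → F m e t = F m e' t → e = e'
  f2 : ∀ m < 3, ∀ e < k, ∀ e' < k, ∀ x, 1 ≤ x → x ≤ b m e → x ≤ b m e' →
    F m e (a m e + b m e + 1 - x) = F m e' (a m e' + b m e' + 1 - x) → e = e'
  f3 : ∀ m < 3, ∀ e < k, ∀ e' < k, ∀ t x, a ((m + 1) % 3) e < t → t ≤ N → 1 ≤ x → x ≤ b m e' →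
    t ≤ x → F ((m + 1) % 3) e t ≠ F m e' (a m e' + b m e' + 1 - x)
  f4 : ∀ m < 3, ∀ e < k, ∀ e' < k, ∀ t t', a m e < t → t < t' → t' ≤ a m e' + b m e' →
    a m e' < t' → ¬ t ≤ a m e + b m e → F m e t ≠ F m e' t'
  f5 : ∀ m < 3, ∀ e < k, ∀ e' < k, ∀ t t', a m e < t → t < t' → t ≤ a m e + b m e →
    a m e' < t' → t' ≤ a m e' + b m e' → a m e + b m e + 1 - t ≤ a m e' + b m e' + 1 - t' →
    F m e t ≠ F m e' t'

variable {N k : ℕ} {a b : ℕ → ℕ → ℕ} {F : ℕ → ℕ → ℕ → ℕ}

/-- class `c` touches block `x` of zone `m` with an own chord -/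
def Own (k : ℕ) (a : ℕ → ℕ → ℕ) (F : ℕ → ℕ → ℕ → ℕ) (m x c : ℕ) : Prop :=
  ∃ e < k, a m e < x ∧ F m e x = c

/-- class `c` touches block `x` of zone `m + 1` with an incoming chord of family `m` -/
def Inc (k : ℕ) (a b : ℕ → ℕ → ℕ) (F : ℕ → ℕ → ℕ → ℕ) (m x c : ℕ) : Prop :=
  ∃ e < k, x ≤ b m e ∧ F m e (a m e + b m e + 1 - x) = c

lemma Good.own_or_inc (G : Good N k a b F) {m x c : ℕ} (hm : m < 3) (hx : 1 ≤ x) (hxN : x ≤ N)
    (hc : c < k) : Own k a F ((m + 1) % 3) x c ∨ Inc k a b F m x c := by
  classical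
  have hm' : (m + 1) % 3 < 3 := Nat.mod_lt _ (by norm_num)
  set S := (range k).filter (fun e => a ((m + 1) % 3) e < x) with hS
  set T := (range k).filter (fun e => x ≤ b m e) with hT
  set S' := S.image (fun e => F ((m + 1) % 3) e x) with hS'
  set T' := T.image (fun e => F m e (a m e + b m e + 1 - x)) with hT'
  have c1 : S'.card = S.card := by
    apply card_image_of_injOn
    intro e he e' he' h
    simp only [hS, coe_filter, mem_range, Set.mem_ofPred_eq] at he he'
    exact G.f1 _ hm' e he.1 e' he'.1 x hxN he.2 he'.2 h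
  have c2 : T'.card = T.card := by
    apply card_image_of_injOn
    intro e he e' he' h
    simp only [hT, coe_filter, mem_range, Set.mem_ofPred_eq] at he he'
    exact G.f2 _ hm e he.1 e' he'.1 x hx he.2 he'.2 h
  have c3 : S.card + T.card = k := by
    rw [hS, G.hmar m hm x, hT]
    have := card_filter_add_card_filter_not (s := range k) (fun e => b m e < x)
    simpa using this
  have c4 : Disjoint S' T' := by
    rw [disjoint_left]
    intro y hy hy'
    simp only [hS', hT', hS, hT, mem_image, mem_filter, mem_range] at hy hy'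
    obtain ⟨e, ⟨he, he2⟩, rfl⟩ := hy
    obtain ⟨e', ⟨he', he2'⟩, h⟩ := hy'
    exact G.f3 m hm e he e' he' x x he2 hxN hx he2' le_rfl h.symm
  have c5 : S' ∪ T' = range k := by
    apply eq_of_subset_of_card_le
    · intro y hy
      rw [mem_range]
      simp only [hS', hT', hS, hT, mem_union, mem_image, mem_filter, mem_range] at hy
      rcases hy with ⟨e, ⟨he, he2⟩, rfl⟩ | ⟨e, ⟨he, he2⟩, rfl⟩
      · exact G.f0 _ hm' e he x he2 hxN
      · have := G.hN m hm e he
        exact G.f0 _ hm e he _ (by omega) (by omega)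
    · rw [card_union_of_disjoint c4, c1, c2, c3, card_range]
  have hc' : c ∈ S' ∪ T' := by rw [c5]; exact mem_range.2 hc
  simp only [hS', hT', hS, hT, mem_union, mem_image, mem_filter, mem_range] at hc'
  rcases hc' with ⟨e, ⟨he, he2⟩, h⟩ | ⟨e, ⟨he, he2⟩, h⟩
  · left; exact ⟨e, he, he2, h⟩
  · right; exact ⟨e, he, he2, h⟩

lemma Good.not_both (G : Good N k a b F) {m x y c : ℕ} (hm : m < 3) (hx : 1 ≤ x) (hxy : x ≤ y)
    (hyN : y ≤ N) (h1 : Own k a F ((m + 1) % 3) x c) (h2 : Inc k a b F m y c) : False := by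
  obtain ⟨e, he, he2, h⟩ := h1
  obtain ⟨e', he', he2', h'⟩ := h2
  exact G.f3 m hm e he e' he' x y he2 (by omega) (by omega) he2' hxy (h.trans h'.symm)

open Classical in
/-- threshold of class `c` in zone `m + 1` -/
noncomputable def T (N k : ℕ) (a b : ℕ → ℕ → ℕ) (F : ℕ → ℕ → ℕ → ℕ) (m c : ℕ) : ℕ :=
  ((Icc 1 N).filter (fun x => Inc k a b F m x c)).card

lemma Good.inc_iff (G : Good N k a b F) {m x c : ℕ} (hm : m < 3) (hx : 1 ≤ x) (hxN : x ≤ N)
    (hc : c < k) : Inc k a b F m x c ↔ x ≤ T N k a b F m c := by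
  classical
  unfold T
  convert downclosed N (fun x => Inc k a b F m x c) ?_ x hx hxN
  intro x y hx hxy hyN hy
  rcases G.own_or_inc hm hx (by omega) hc with h | h
  · exact (G.not_both hm hx hxy hyN h hy).elim
  · exact h

lemma Good.own_iff (G : Good N k a b F) {m x c : ℕ} (hm : m < 3) (hx : 1 ≤ x) (hxN : x ≤ N)
    (hc : c < k) : Own k a F ((m + 1) % 3) x c ↔ T N k a b F m c < x := by
  rw [← not_le, ← G.inc_iff hm hx hxN hc]
  constructor
  · intro h1 h2
    exact G.not_both hm hx le_rfl hxN h1 h2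
  · intro h
    rcases G.own_or_inc hm hx (by omega) hc with h' | h'
    · exact h'
    · exact (h h').elim

/-- threshold of class `c` in zone `m` -/
noncomputable def Th (N k : ℕ) (a b : ℕ → ℕ → ℕ) (F : ℕ → ℕ → ℕ → ℕ) (m c : ℕ) : ℕ :=
  T N k a b F ((m + 2) % 3) c

lemma Good.own_iff' (G : Good N k a b F) {m x c : ℕ} (hm : m < 3) (hx : 1 ≤ x) (hxN : x ≤ N)
    (hc : c < k) : Own k a F m x c ↔ Th N k a b F m c < x := by
  have := G.own_iff (m := (m + 2) % 3) (x := x) (c := c) (Nat.mod_lt _ (by norm_num)) hx hxN hc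
  have h2 : ((m + 2) % 3 + 1) % 3 = m := by omega
  rw [h2] at this
  exact this

lemma Good.inc_iff' (G : Good N k a b F) {m x c : ℕ} (hm : m < 3) (hx : 1 ≤ x) (hxN : x ≤ N)
    (hc : c < k) : Inc k a b F m x c ↔ x ≤ Th N k a b F ((m + 1) % 3) c := by
  have := G.inc_iff (m := m) (x := x) (c := c) hm hx hxN hc
  have h2 : ((m + 1) % 3 + 2) % 3 = m := by omega
  unfold Th
  rw [h2]
  exact this

lemma T_le (m c : ℕ) : T N k a b F m c ≤ N := by
  classical
  unfold T
  exact (card_filter_le _ _).trans (by simp)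

lemma Th_le (m c : ℕ) : Th N k a b F m c ≤ N := T_le _ _

/-- class `c` has a full chord from block `t` of zone `m` to block `j` of zone `m + 1` -/
def Full (k : ℕ) (a b : ℕ → ℕ → ℕ) (F : ℕ → ℕ → ℕ → ℕ) (m c t j : ℕ) : Prop :=
  ∃ e < k, a m e < t ∧ t + j = a m e + b m e + 1 ∧ 1 ≤ j ∧ F m e t = c

lemma Good.full_bounds (G : Good N k a b F) {m c t j : ℕ} (hm : m < 3) (hc : c < k)
    (h : Full k a b F m c t j) : Th N k a b F m c < t ∧ t ≤ N ∧ 1 ≤ j ∧
      j ≤ Th N k a b F ((m + 1) % 3) c := by
  obtain ⟨e, he, h1, h2, h3, h4⟩ := h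
  have hN := G.hN m hm e he
  refine ⟨(G.own_iff' hm (by omega) (by omega) hc).1 ⟨e, he, h1, h4⟩, by omega, h3, ?_⟩
  refine (G.inc_iff' hm h3 (by omega) hc).1 ⟨e, he, by omega, ?_⟩
  have : a m e + b m e + 1 - j = t := by omega
  rw [this, h4]

lemma Good.exists_full (G : Good N k a b F) {m c j : ℕ} (hm : m < 3) (hc : c < k) (hj : 1 ≤ j)
    (hjQ : j ≤ Th N k a b F ((m + 1) % 3) c) : ∃ t, Full k a b F m c t j := by
  have := (G.inc_iff' hm hj (hjQ.trans (Th_le _ _)) hc).2 hjQ
  obtain ⟨e, he, h1, h2⟩ := this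
  exact ⟨_, e, he, by omega, by omega, hj, h2⟩

lemma Good.full_anti (G : Good N k a b F) {m c t j t' j' : ℕ} (hm : m < 3)
    (h : Full k a b F m c t j) (h' : Full k a b F m c t' j') (htt : t < t') : j' < j := by
  obtain ⟨e, he, h1, h2, h3, h4⟩ := h
  obtain ⟨e', he', h1', h2', h3', h4'⟩ := h'
  by_contra hcon
  exact G.f5 m hm e he e' he' t t' h1 htt (by omega) h1' (by omega) (by omega) (h4.trans h4'.symm)

lemma Good.full_unique (G : Good N k a b F) {m c t j j' : ℕ} (hm : m < 3)
    (h : Full k a b F m c t j) (h' : Full k a b F m c t j') : j = j' := by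
  obtain ⟨e, he, h1, h2, h3, h4⟩ := h
  obtain ⟨e', he', h1', h2', h3', h4'⟩ := h'
  have hN := G.hN m hm e he
  have := G.f1 m hm e he e' he' t (by omega) h1 h1' (h4.trans h4'.symm)
  subst this
  omega

lemma Good.full_down (G : Good N k a b F) {m c t j t' : ℕ} (hm : m < 3) (hc : c < k)
    (h : Full k a b F m c t j) (ht' : Th N k a b F m c < t') (htt : t' < t) :
    ∃ j', Full k a b F m c t' j' := by
  have hb := G.full_bounds hm hc h
  obtain ⟨e', he', h1', h2'⟩ := (G.own_iff' hm (by omega) (by omega) hc).2 ht'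
  obtain ⟨e, he, h1, h2, h3, h4⟩ := h
  by_cases hf : t' ≤ a m e' + b m e'
  · exact ⟨a m e' + b m e' + 1 - t', e', he', h1', by omega, by omega, h2'⟩
  · exact (G.f4 m hm e' he' e he t' t h1' htt (by omega) h1 hf (h2'.trans h4.symm)).elim

lemma Good.full_sum (G : Good N k a b F) {m c : ℕ} (hm : m < 3) (hc : c < k) :
    ∀ n t j, n = Th N k a b F ((m + 1) % 3) c - j → Full k a b F m c t j →
      t + j = Th N k a b F m c + Th N k a b F ((m + 1) % 3) c + 1 := by
  intro n
  induction n using Nat.strong_induction_on with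
  | _ n ih =>
    intro t j hn h
    have hb := G.full_bounds hm hc h
    -- lower bound
    have lo : Th N k a b F m c + Th N k a b F ((m + 1) % 3) c + 1 ≤ t + j := by
      by_cases hj : j = Th N k a b F ((m + 1) % 3) c
      · omega
      · obtain ⟨t', h'⟩ := G.exists_full hm hc (j := j + 1) (by omega) (by omega)
        have e1 := ih (n - 1) (by omega) t' (j + 1) (by omega) h'
        have : t' < t := by
          by_contra hcon
          rcases Nat.lt_or_ge t t' with h3 | h3
          · have := G.full_anti hm h h' h3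
            omega
          · have h4 : t = t' := by omega
            subst h4
            have := G.full_unique hm h h'
            omega
        omega
    by_contra hne
    obtain ⟨t0, ht0⟩ : ∃ t0, t0 + j = Th N k a b F m c + Th N k a b F ((m + 1) % 3) c + 1 :=
      ⟨Th N k a b F m c + Th N k a b F ((m + 1) % 3) c + 1 - j, by omega⟩
    obtain ⟨j0, h0⟩ := G.full_down hm hc h (t' := t0) (by omega) (by omega)
    have h1 := G.full_anti hm h0 h (by omega)
    have hb0 := G.full_bounds hm hc h0
    have e1 := ih (Th N k a b F ((m + 1) % 3) c - j0) (by omega) t0 j0 rfl h0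
    omega

lemma Good.full_iff (G : Good N k a b F) {m c t j : ℕ} (hm : m < 3) (hc : c < k) :
    Full k a b F m c t j ↔ Th N k a b F m c < t ∧ 1 ≤ j ∧
      t + j = Th N k a b F m c + Th N k a b F ((m + 1) % 3) c + 1 := by
  constructor
  · intro h
    have hb := G.full_bounds hm hc h
    exact ⟨hb.1, hb.2.2.1, G.full_sum hm hc _ t j rfl h⟩
  · rintro ⟨h1, h2, h3⟩
    obtain ⟨t', h'⟩ := G.exists_full hm hc h2 (by omega)
    have := G.full_sum hm hc _ t' j rfl h'
    have : t = t' := by omega
    subst this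
    exact h'

lemma Good.count1 (G : Good N k a b F) {m i j : ℕ} (hm : m < 3) (hj : 1 ≤ j) :
    ((range k).filter (fun e => a m e < i ∧ a m e + b m e + 1 = i + j)).card =
    ((range k).filter (fun c => Th N k a b F m c < i ∧
      Th N k a b F m c + Th N k a b F ((m + 1) % 3) c + 1 = i + j)).card := by
  refine card_bij (fun e _ => F m e i) ?_ ?_ ?_
  · intro e he
    rw [mem_filter, mem_range] at he
    have hN := G.hN m hm e he.1
    have hlt := G.f0 m hm e he.1 i he.2.1 (by omega)
    rw [mem_filter, mem_range]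
    have := (G.full_iff hm hlt).1 ⟨e, he.1, he.2.1, he.2.2.symm, hj, rfl⟩
    exact ⟨hlt, this.1, this.2.2.symm⟩
  · intro e he e' he' h
    rw [mem_filter, mem_range] at he he'
    have hN := G.hN m hm e he.1
    exact G.f1 m hm e he.1 e' he'.1 i (by omega) he.2.1 he'.2.1 h
  · intro c hc
    rw [mem_filter, mem_range] at hc
    obtain ⟨e, he, h1, h2, h3, h4⟩ := (G.full_iff hm hc.1 (t := i) (j := j)).2 ⟨hc.2.1, hj, hc.2.2.symm⟩
    exact ⟨e, by rw [mem_filter, mem_range]; exact ⟨he, h1, h2.symm⟩, h4⟩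

lemma fib_eq {k : ℕ} {a b p q : ℕ → ℕ} (hb : ∀ e < k, 1 ≤ b e)
    (h : ∀ i j, 1 ≤ j → ((range k).filter (fun e => a e < i ∧ a e + b e + 1 = i + j)).card =
      ((range k).filter (fun c => p c < i ∧ p c + q c + 1 = i + j)).card) (v w : ℕ) :
    ((range k).filter (fun e => a e = v ∧ b e = w)).card =
      ((range k).filter (fun c => p c = v ∧ q c = w)).card := by
  classical
  have key : ∀ v w, 1 ≤ w → ((range k).filter (fun e => a e = v ∧ b e = w)).card =
      ((range k).filter (fun c => p c = v ∧ q c = w)).card := by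
    intro v w hw
    have h1 := h (v + 1) w hw
    have h2 := h v (w + 1) (by omega)
    have e1 : ∀ f g : ℕ → ℕ, ((range k).filter (fun e => f e < v + 1 ∧ f e + g e + 1 = v + 1 + w)).card =
        ((range k).filter (fun e => f e < v ∧ f e + g e + 1 = v + (w + 1))).card +
        ((range k).filter (fun e => f e = v ∧ g e = w)).card := by
      intro f g
      rw [← card_union_of_disjoint]
      · congr 1
        ext e
        simp only [mem_filter, mem_range, mem_union]
        omega
      · rw [disjoint_left]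
        intro e he he'
        simp only [mem_filter, mem_range] at he he'
        omega
    rw [e1, e1] at h1
    omega
  rcases Nat.eq_zero_or_pos w with hw | hw
  · subst hw
    have z1 : ((range k).filter (fun e => a e = v ∧ b e = 0)).card = 0 := by
      rw [card_eq_zero, filter_eq_empty_iff]
      intro e he h'
      have := hb e (mem_range.1 he)
      omega
    rw [z1]
    -- all classes have positive second threshold
    have le : Multiset.map (fun e => (a e, b e)) (range k).val ≤
        Multiset.map (fun e => (p e, q e)) (range k).val := by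
      rw [Multiset.le_iff_count]
      rintro ⟨x, y⟩
      rw [Multiset.count_map, Multiset.count_map]
      have e2 : ∀ f g : ℕ → ℕ, (Multiset.filter (fun e => (x, y) = (f e, g e)) (range k).val).card =
          ((range k).filter (fun e => f e = x ∧ g e = y)).card := by
        intro f g
        rw [card_def, filter_val]
        congr 1
        apply Multiset.filter_congr
        intro e _
        rw [Prod.mk.injEq]
        constructor
        · rintro ⟨rfl, rfl⟩; exact ⟨rfl, rfl⟩
        · rintro ⟨rfl, rfl⟩; exact ⟨rfl, rfl⟩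
      rw [e2, e2]
      rcases Nat.eq_zero_or_pos y with hy | hy
      · subst hy
        have : ((range k).filter (fun e => a e = x ∧ b e = 0)).card = 0 := by
          rw [card_eq_zero, filter_eq_empty_iff]
          intro e he h'
          have := hb e (mem_range.1 he)
          omega
        rw [this]
        exact Nat.zero_le _
      · rw [key x y hy]
    have eq := Multiset.eq_of_le_of_card_le le (by simp)
    symm
    rw [card_eq_zero, filter_eq_empty_iff]
    intro c hc h'
    have : (p c, q c) ∈ Multiset.map (fun e => (p e, q e)) (range k).val :=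
      Multiset.mem_map_of_mem _ hc
    rw [← eq, Multiset.mem_map] at this
    obtain ⟨e, he, h2⟩ := this
    rw [Prod.mk.injEq] at h2
    have := hb e (mem_range.1 he)
    omega
  · exact key v w hw

/-- The forward direction: a colouring gives thresholds realising the three families. -/
theorem Good.table (G : Good N k a b F) : ∃ Θ : ℕ → ℕ → ℕ, ∀ m < 3, ∀ v w,
    ((range k).filter (fun e => a m e = v ∧ b m e = w)).card =
      ((range k).filter (fun c => Θ m c = v ∧ Θ ((m + 1) % 3) c = w)).card :=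
  ⟨Th N k a b F, fun m hm v w => fib_eq (G.hb m hm) (fun _ _ hj => G.count1 hm hj) v w⟩

end Pool.Agent.Seg
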