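import Mathlib

set_option autoImplicit false

namespace Pool.Agent.Seg

open List

/-- Three-way table with prescribed two-dimensional margins, as a list of triples. -/
def Table {α : Type} (U : List (α × α)) (V : List (α × ℕ)) (W : List (ℕ × α)) : Prop :=
  ∃ T : List (α × α × ℕ), (T.map fun t => (t.1, t.2.1)) ~ U ∧ (T.map fun t => (t.2.1, t.2.2)) ~ V ∧
    (T.map fun t => (t.2.2, t.1)) ~ W

/-- The two colours among `1, 2, 3` other than `m`. -/
def cols (m : ℕ) : List ℕ := if m = 1 then [2, 3] else if m = 2 then [1, 3] else [1, 2]

section gadget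

variable {ι α : Type} (E : List ι) (ε P Q : ι → α) (miss : ι → ℕ) (Vb : List (α × ℕ))

/-- Family `U` of the gadget graph. -/
def gU : List (α × α) := E.flatMap fun l => [(P l, ε l), (ε l, ε l), (ε l, Q l)]

/-- Family `V` of the gadget graph. -/
def gV : List (α × ℕ) := (E.flatMap fun l => (cols (miss l)).map fun r => (ε l, r)) ++ Vb

/-- Family `W` of the gadget graph. -/
def gW : List (ℕ × α) := (gV E ε miss Vb).map Prod.swap

variable {E ε P Q miss Vb}

lemma filter_flatMap_one {β : Type} {E : List ι} (nd : E.Nodup) {f : ι → List β} {p : β → Bool} {l : ι}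
    (hl : l ∈ E) (h : ∀ l' ∈ E, l' ≠ l → (f l').filter p = []) :
    (E.flatMap f).filter p = (f l).filter p := by
  induction E with
  | nil => simp at hl
  | cons a E ih =>
    rw [nodup_cons] at nd
    rw [flatMap_cons, filter_append]
    rcases mem_cons.1 hl with rfl | hl'
    · have : (E.flatMap f).filter p = [] := by
        rw [filter_flatMap]
        rw [flatMap_eq_nil_iff]
        intro x hx
        exact h x (mem_cons_of_mem _ hx) (by rintro rfl; exact nd.1 hx)
      rw [this, append_nil]
    · rw [ih nd.2 hl' (fun l' h1 h2 => h l' (mem_cons_of_mem _ h1) h2),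
        h a mem_cons_self (by rintro rfl; exact nd.1 hl'), nil_append]

lemma lift_colours (nd : E.Nodup) (T : List (α × α × ℕ))
    (h : (T.map fun t => (t.1, t.2.1)) = gU E ε P Q) :
    ∃ c1 c2 c3 : ι → ℕ,
      T = E.flatMap fun l => [(P l, ε l, c1 l), (ε l, ε l, c2 l), (ε l, Q l, c3 l)] := by
  classical
  induction E generalizing T with
  | nil =>
    simp only [gU, flatMap_nil, map_eq_nil_iff] at h
    subst h
    exact ⟨fun _ => 0, fun _ => 0, fun _ => 0, by simp⟩
  | cons l E ih =>
    rw [nodup_cons] at nd
    unfold gU at h
    rw [flatMap_cons] at h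
    match T, h with
    | t1 :: t2 :: t3 :: T', h =>
      simp only [map_cons, cons_append, nil_append, cons.injEq] at h
      obtain ⟨h1, h2, h3, h4⟩ := h
      obtain ⟨c1, c2, c3, hc⟩ := ih nd.2 T' h4
      refine ⟨Function.update c1 l t1.2.2, Function.update c2 l t2.2.2,
        Function.update c3 l t3.2.2, ?_⟩
      rw [flatMap_cons]
      simp only [Function.update_self, cons_append, nil_append, cons.injEq]
      refine ⟨?_, ?_, ?_, ?_⟩
      · rw [Prod.mk.injEq] at h1
        rw [← h1.1, ← h1.2]
      · rw [Prod.mk.injEq] at h2
        rw [← h2.2, h2.2, ← h2.1]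
        ext <;> simp [h2.1, h2.2]
      · rw [Prod.mk.injEq] at h3
        rw [← h3.1, ← h3.2]
      · rw [hc]
        apply flatMap_congr
        intro l' hl'
        have : l' ≠ l := by rintro rfl; exact nd.1 hl'
        simp [Function.update_of_ne this]
    | [], h => simp at h
    | [_], h => simp at h
    | [_, _], h => simp at h

lemma cols_perm {m x : ℕ} (hm : m = 1 ∨ m = 2 ∨ m = 3) (hx : x ∈ cols m) :
    [x, 6 - m - x] ~ cols m := by
  rcases hm with rfl | rfl | rfl <;> simp [cols] at hx ⊢ <;> rcases hx with rfl | rfl <;> decide

theorem gadget_iff (nd : E.Nodup) (hε : ∀ l ∈ E, ∀ l' ∈ E, ε l = ε l' → l = l')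
    (hP : ∀ l ∈ E, ∀ l' ∈ E, P l ≠ ε l') (hQ : ∀ l ∈ E, ∀ l' ∈ E, Q l ≠ ε l')
    (hV : ∀ l ∈ E, ∀ p ∈ Vb, p.1 ≠ ε l) (hm : ∀ l ∈ E, miss l = 1 ∨ miss l = 2 ∨ miss l = 3) :
    Table (gU E ε P Q) (gV E ε miss Vb) (gW E ε miss Vb) ↔
      ∃ x : ι → ℕ, (∀ l ∈ E, x l ∈ cols (miss l)) ∧ (E.map fun l => (Q l, x l)) ~ Vb ∧
        (E.map fun l => (P l, x l)) ~ Vb := by
  classical
  constructor
  · rintro ⟨T, h1, h2, h3⟩
    have : Relation.Comp (· = map (fun t : α × α × ℕ => (t.1, t.2.1)) ·) (· ~ ·) (gU E ε P Q) T := by
      rw [eq_map_comp_perm]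
      exact h1.symm
    obtain ⟨T', hT', hp⟩ := this
    obtain ⟨c1, c2, c3, hc⟩ := lift_colours nd T' hT'.symm
    have h2' : (T'.map fun t => (t.2.1, t.2.2)) ~ gV E ε miss Vb := (hp.map _).trans h2
    have h3' : (T'.map fun t => (t.2.2, t.1)) ~ gW E ε miss Vb := (hp.map _).trans h3
    rw [hc, map_flatMap] at h2' h3'
    simp only [map_cons, map_nil] at h2' h3'
    have k2 : ∀ l ∈ E, [c1 l, c2 l] ~ cols (miss l) := by
      intro l hl
      have := h2'.filter (fun p => decide (p.1 = ε l))
      unfold gV at this
      rw [filter_append, filter_flatMap_one nd hl, filter_flatMap_one nd hl] at this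
      · have e1 : Vb.filter (fun p => decide (p.1 = ε l)) = [] := by
          rw [filter_eq_nil_iff]
          intro p hp
          simpa using hV l hl p hp
        have hQl := hQ l hl l hl
        have e2 : (map (fun r => (ε l, r)) (cols (miss l))).filter (fun p => decide (p.1 = ε l)) =
            map (fun r => (ε l, r)) (cols (miss l)) := by
          rw [filter_eq_self]
          intro p hp
          rw [mem_map] at hp
          obtain ⟨r, _, rfl⟩ := hp
          simp
        rw [e1, e2] at this
        simp [hQl] at this
        have := this.map Prod.snd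
        simpa [Function.comp_def] using this
      · intro l' hl' hne
        rw [filter_eq_nil_iff]
        intro p hp
        rw [mem_map] at hp
        obtain ⟨r, _, rfl⟩ := hp
        simp only [decide_eq_true_eq]
        intro h
        exact hne (hε l' hl' l hl h)
      · intro l' hl' hne
        have a1 : ε l' ≠ ε l := fun h => hne (hε l' hl' l hl h)
        have a2 := hQ l' hl' l hl
        simp [a1, a2]
    have k3 : ∀ l ∈ E, [c2 l, c3 l] ~ cols (miss l) := by
      intro l hl
      have := h3'.filter (fun p => decide (p.2 = ε l))
      unfold gW gV at this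
      rw [map_append, filter_append, map_flatMap, filter_flatMap_one nd hl,
        filter_flatMap_one nd hl] at this
      · have e1 : (Vb.map Prod.swap).filter (fun p => decide (p.2 = ε l)) = [] := by
          rw [filter_eq_nil_iff]
          intro p hp
          rw [mem_map] at hp
          obtain ⟨p, hp, rfl⟩ := hp
          simpa using hV l hl p hp
        have hPl := hP l hl l hl
        have e2 : (map Prod.swap (map (fun r => (ε l, r)) (cols (miss l)))).filter
            (fun p => decide (p.2 = ε l)) = map (fun r => (r, ε l)) (cols (miss l)) := by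
          rw [map_map, filter_eq_self.2]
          · rfl
          · intro p hp
            rw [mem_map] at hp
            obtain ⟨r, _, rfl⟩ := hp
            simp
        rw [e1, e2] at this
        simp [hPl] at this
        have := this.map Prod.fst
        simpa [Function.comp_def] using this
      · intro l' hl' hne
        rw [filter_eq_nil_iff]
        intro p hp
        rw [map_map, mem_map] at hp
        obtain ⟨r, _, rfl⟩ := hp
        simp only [Function.comp, Prod.swap, decide_eq_true_eq]
        intro h
        exact hne (hε l' hl' l hl h)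
      · intro l' hl' hne
        have a1 : ε l' ≠ ε l := fun h => hne (hε l' hl' l hl h)
        have a2 := hP l' hl' l hl
        simp [a1, a2]
    have k4 : ∀ l ∈ E, c3 l = c1 l := by
      intro l hl
      have a1 : [c1 l, c2 l] ~ [c2 l, c3 l] := (k2 l hl).trans (k3 l hl).symm
      have a2 : [c2 l, c1 l] ~ [c2 l, c3 l] := (Perm.swap _ _ _).trans a1
      have a3 : [c1 l] ~ [c3 l] := (perm_cons _).1 a2
      simpa using a3.symm
    refine ⟨c1, fun l hl => (k2 l hl).subset (by simp), ?_, ?_⟩
    · have := h2'.filter (fun p => decide (∀ l ∈ E, p.1 ≠ ε l))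
      unfold gV at this
      rw [filter_append, filter_flatMap, filter_flatMap] at this
      have e1 : Vb.filter (fun p => decide (∀ l ∈ E, p.1 ≠ ε l)) = Vb := by
        rw [filter_eq_self]
        intro p hp
        rw [decide_eq_true_eq]
        exact fun l hl => hV l hl p hp
      have e2 : (E.flatMap fun l => (map (fun r => (ε l, r)) (cols (miss l))).filter
          (fun p => decide (∀ l ∈ E, p.1 ≠ ε l))) = [] := by
        rw [flatMap_eq_nil_iff]
        intro l hl
        rw [filter_eq_nil_iff]
        intro p hp
        rw [mem_map] at hp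
        obtain ⟨r, _, rfl⟩ := hp
        simp only [decide_eq_true_eq]
        intro h
        exact h l hl rfl
      have e3 : (E.flatMap fun l => [(ε l, c1 l), (ε l, c2 l), (Q l, c3 l)].filter
          (fun p => decide (∀ l ∈ E, p.1 ≠ ε l))) = E.map fun l => (Q l, c1 l) := by
        rw [map_eq_flatMap]
        apply flatMap_congr
        intro l hl
        have a1 : ¬ ∀ l' ∈ E, ε l ≠ ε l' := fun h => h l hl rfl
        have a2 : ∀ l' ∈ E, Q l ≠ ε l' := fun l' hl' => hQ l hl l' hl'
        rw [filter_cons_of_neg (by simpa using ⟨l, hl, rfl⟩),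
          filter_cons_of_neg (by simpa using ⟨l, hl, rfl⟩), filter_cons_of_pos (by simpa using a2),
          filter_nil, k4 l hl]
      rw [e1, e2, e3, nil_append] at this
      exact this
    · have := h3'.filter (fun p => decide (∀ l ∈ E, p.2 ≠ ε l))
      unfold gW gV at this
      rw [map_append, filter_append, map_flatMap, filter_flatMap, filter_flatMap] at this
      have e1 : (Vb.map Prod.swap).filter (fun p => decide (∀ l ∈ E, p.2 ≠ ε l)) =
          Vb.map Prod.swap := by
        rw [filter_eq_self]
        intro p hp
        rw [mem_map] at hp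
        obtain ⟨p, hp, rfl⟩ := hp
        rw [decide_eq_true_eq]
        exact fun l hl => hV l hl p hp
      have e2 : (E.flatMap fun l => (map Prod.swap (map (fun r => (ε l, r)) (cols (miss l)))).filter
          (fun p => decide (∀ l ∈ E, p.2 ≠ ε l))) = [] := by
        rw [flatMap_eq_nil_iff]
        intro l hl
        rw [filter_eq_nil_iff]
        intro p hp
        rw [map_map, mem_map] at hp
        obtain ⟨r, _, rfl⟩ := hp
        simp only [decide_eq_true_eq, Function.comp, Prod.swap]
        intro h
        exact h l hl rfl
      have e3 : (E.flatMap fun l => [(c1 l, P l), (c2 l, ε l), (c3 l, ε l)].filter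
          (fun p => decide (∀ l ∈ E, p.2 ≠ ε l))) = E.map fun l => (c1 l, P l) := by
        rw [map_eq_flatMap]
        apply flatMap_congr
        intro l hl
        have a2 : ∀ l' ∈ E, P l ≠ ε l' := fun l' hl' => hP l hl l' hl'
        rw [filter_cons_of_pos (by simpa using a2), filter_cons_of_neg (by simpa using ⟨l, hl, rfl⟩),
          filter_cons_of_neg (by simpa using ⟨l, hl, rfl⟩),
          filter_nil]
      rw [e1, e2, e3, nil_append] at this
      have := this.map Prod.swap
      simpa [Function.comp_def] using this
  · rintro ⟨x, h1, h2, h3⟩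
    refine ⟨E.flatMap fun l => [(P l, ε l, x l), (ε l, ε l, 6 - miss l - x l), (ε l, Q l, x l)],
      ?_, ?_, ?_⟩
    · rw [map_flatMap]
      simp [gU]
    · rw [map_flatMap]
      simp only [map_cons, map_nil]
      unfold gV
      have a1 : (E.flatMap fun l => [(ε l, x l), (ε l, 6 - miss l - x l), (Q l, x l)]) ~
          (E.flatMap fun l => [(ε l, x l), (ε l, 6 - miss l - x l)]) ++
            E.flatMap fun l => [(Q l, x l)] := by
        refine Perm.trans ?_ (flatMap_append_perm _ _ _).symm
        simp
      refine a1.trans (Perm.append ?_ ?_)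
      · apply Perm.flatMap_left
        intro l hl
        have := (cols_perm (hm l hl) (h1 l hl)).map (fun r => (ε l, r))
        simpa using this
      · rw [← map_eq_flatMap]
        exact h2
    · rw [map_flatMap]
      simp only [map_cons, map_nil]
      unfold gW gV
      rw [map_append, map_flatMap]
      have a1 : (E.flatMap fun l => [(x l, P l), (6 - miss l - x l, ε l), (x l, ε l)]) ~
          (E.flatMap fun l => [(x l, ε l), (6 - miss l - x l, ε l)]) ++
            E.flatMap fun l => [(x l, P l)] := by
        refine Perm.trans ?_ (flatMap_append_perm _ _ _).symm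
        apply Perm.flatMap_left
        intro l _
        simp only [cons_append, nil_append]
        have : [(x l, P l), (6 - miss l - x l, ε l), (x l, ε l)] ~
            [(x l, ε l), (6 - miss l - x l, ε l), (x l, P l)] := by
          have b1 := reverse_perm [(x l, ε l), (6 - miss l - x l, ε l), (x l, P l)]
          simpa using b1
        exact this
      refine a1.trans (Perm.append ?_ ?_)
      · apply Perm.flatMap_left
        intro l hl
        have := (cols_perm (hm l hl) (h1 l hl)).map (fun r => (r, ε l))
        simpa [Function.comp_def] using this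
      · rw [← map_eq_flatMap]
        have := h3.map Prod.swap
        simpa [Function.comp_def] using this

/-- Tables transfer along a renaming of the indices. -/
theorem table_map {β : Type} {U : List (α × α)} {V : List (α × ℕ)} {W : List (ℕ × α)} {f : α → β}
    {g : β → α} (hU : ∀ u ∈ U, g (f u.1) = u.1 ∧ g (f u.2) = u.2)
    (hV : ∀ u ∈ V, g (f u.1) = u.1) (hW : ∀ u ∈ W, g (f u.2) = u.2) :
    Table (U.map fun u => (f u.1, f u.2)) (V.map fun u => (f u.1, u.2)) (W.map fun u => (u.1, f u.2)) ↔
      Table U V W := by
  constructor
  · rintro ⟨T, h1, h2, h3⟩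
    refine ⟨T.map fun t => (g t.1, g t.2.1, t.2.2), ?_, ?_, ?_⟩
    · have := h1.map (fun u => (g u.1, g u.2))
      rw [map_map, map_map] at this
      rw [map_map]
      refine Perm.trans this ?_
      have e : map ((fun u : β × β => (g u.1, g u.2)) ∘ fun u : α × α => (f u.1, f u.2)) U = map id U := by
        apply map_congr_left
        intro u hu
        simp [(hU u hu).1, (hU u hu).2]
      rw [e, map_id]
    · have := h2.map (fun u => (g u.1, u.2))
      rw [map_map, map_map] at this
      rw [map_map]
      refine Perm.trans this ?_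
      have e : map ((fun u : β × ℕ => (g u.1, u.2)) ∘ fun u : α × ℕ => (f u.1, u.2)) V = map id V := by
        apply map_congr_left
        intro u hu
        simp [hV u hu]
      rw [e, map_id]
    · have := h3.map (fun u => (u.1, g u.2))
      rw [map_map, map_map] at this
      rw [map_map]
      refine Perm.trans this ?_
      have e : map ((fun u : ℕ × β => (u.1, g u.2)) ∘ fun u : ℕ × α => (u.1, f u.2)) W = map id W := by
        apply map_congr_left
        intro u hu
        simp [hW u hu]
      rw [e, map_id]
  · rintro ⟨T, h1, h2, h3⟩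
    refine ⟨T.map fun t => (f t.1, f t.2.1, t.2.2), ?_, ?_, ?_⟩
    · have := h1.map (fun u => (f u.1, f u.2))
      rw [map_map] at this
      rw [map_map]
      exact this
    · have := h2.map (fun u => (f u.1, u.2))
      rw [map_map] at this
      rw [map_map]
      exact this
    · have := h3.map (fun u => (u.1, f u.2))
      rw [map_map] at this
      rw [map_map]
      exact this

end gadget

end Pool.Agent.Seg
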