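import Pool.Agent.Lib_helper79.Seg.Defs

set_option autoImplicit false

namespace Pool.Agent.Seg

open Finset

/-! ### Lexicographic coordinates -/

/-- Position of a point with zone `z`, block `x`, sub-block `s`, rank `i`, in base `B`. -/
def enc (B z x s i : ℕ) : ℕ := ((z * B + x) * B + s) * B + i

lemma two_lt {B u s u' s' : ℕ} (hs : s < B) (hs' : s' < B) :
    u * B + s < u' * B + s' ↔ u < u' ∨ (u = u' ∧ s < s') := by
  rcases lt_trichotomy u u' with h | h | h
  · have : (u + 1) * B ≤ u' * B := Nat.mul_le_mul_right _ h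
    constructor
    · intro _; exact Or.inl h
    · intro _; nlinarith
  · subst h
    constructor
    · intro h; right; exact ⟨rfl, by omega⟩
    · rintro (h | ⟨_, h⟩) <;> omega
  · have : (u' + 1) * B ≤ u * B := Nat.mul_le_mul_right _ h
    constructor
    · intro _; nlinarith
    · rintro (h | ⟨h, _⟩) <;> omega

lemma two_eq {B u s u' s' : ℕ} (hs : s < B) (hs' : s' < B) :
    u * B + s = u' * B + s' ↔ u = u' ∧ s = s' := by
  have h1 := two_lt (u := u) (u' := u') hs hs'
  have h2 := two_lt (u := u') (u' := u) hs' hs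
  constructor
  · intro h
    have h3 : ¬ (u < u' ∨ (u = u' ∧ s < s')) := fun h' => by have := h1.2 h'; omega
    have h4 : ¬ (u' < u ∨ (u' = u ∧ s' < s)) := fun h' => by have := h2.2 h'; omega
    omega
  · rintro ⟨rfl, rfl⟩; rfl

lemma enc_lt {B z x s i z' x' s' i' : ℕ} (hx : x < B) (hx' : x' < B) (hs : s < B) (hs' : s' < B)
    (hi : i < B) (hi' : i' < B) :
    enc B z x s i < enc B z' x' s' i' ↔
      z < z' ∨ (z = z' ∧ (x < x' ∨ (x = x' ∧ (s < s' ∨ (s = s' ∧ i < i'))))) := by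
  unfold enc
  rw [two_lt hi hi', two_lt hs hs', two_eq hs hs', two_lt hx hx', two_eq hx hx']
  omega

lemma enc_eq {B z x s i z' x' s' i' : ℕ} (hx : x < B) (hx' : x' < B) (hs : s < B) (hs' : s' < B)
    (hi : i < B) (hi' : i' < B) :
    enc B z x s i = enc B z' x' s' i' ↔ z = z' ∧ x = x' ∧ s = s' ∧ i = i' := by
  unfold enc
  rw [two_eq hi hi', two_eq hs hs', two_eq hx hx']
  omega

/-! ### The chords -/

lemma Cross.symm {c d : ℕ × ℕ} (h : Cross c d) : Cross d c := Or.symm h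

/-- The endpoint in the own zone of chord `(m, e, t)` (element `e` with margins `(p, q)`). -/
def own (B m p q e t : ℕ) : ℕ := enc B (2 * m + 1) t (if t ≤ p + q then p + q + 1 - t else 0) e

/-- The other endpoint of chord `(m, e, t)`. -/
def oth (B N m p q e t : ℕ) : ℕ :=
  if t ≤ p + q then enc B (2 * ((m + 1) % 3) + 1) (p + q + 1 - t) (N + t) e
  else enc B (2 * ((m + 1) % 3)) (N - t) 0 e

/-- The chord `(m, e, t)`. -/
def ch (B N m p q e t : ℕ) : ℕ × ℕ :=
  if m = 2 then (oth B N m p q e t, own B m p q e t) else (own B m p q e t, oth B N m p q e t)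

section cross

variable {B N k : ℕ}

lemma ch_lt (hB : 2 * N + 2 ≤ B) (hkB : k ≤ B) {m p q e t : ℕ} (hm : m < 3) (he : e < k)
    (hpq : p + q ≤ N) (ht : p < t) (htN : t ≤ N) :
    (ch B N m p q e t).1 < (ch B N m p q e t).2 := by
  unfold ch own oth
  interval_cases m <;> simp <;> split_ifs <;> rw [enc_lt] <;> omega

/-- two own chords in one block -/
lemma cross_own (hB : 2 * N + 2 ≤ B) (hkB : k ≤ B) {m p q e p' q' e' t : ℕ} (hm : m < 3) (he : e < k)
    (he' : e' < k) (hpq : p + q ≤ N) (hpq' : p' + q' ≤ N) (ht : p < t) (ht' : p' < t) (htN : t ≤ N)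
    (hne : e ≠ e') :
    Cross (ch B N m p q e t) (ch B N m p' q' e' t) := by
  unfold Cross ch own oth
  interval_cases m <;> simp <;> split_ifs <;>
    rw [enc_lt, enc_lt, enc_lt, enc_lt, enc_lt, enc_lt] <;> omega

/-- two incoming chords in one block -/
lemma cross_inc (hB : 2 * N + 2 ≤ B) (hkB : k ≤ B) {m p q e p' q' e' x : ℕ} (hm : m < 3) (he : e < k)
    (he' : e' < k) (hpq : p + q ≤ N) (hpq' : p' + q' ≤ N) (hx : 1 ≤ x) (hxq : x ≤ q) (hxq' : x ≤ q')
    (hne : e ≠ e') :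
    Cross (ch B N m p q e (p + q + 1 - x)) (ch B N m p' q' e' (p' + q' + 1 - x)) := by
  have h1 : p + q + 1 - x ≤ p + q := by omega
  have h2 : p' + q' + 1 - x ≤ p' + q' := by omega
  unfold Cross ch own oth
  interval_cases m <;> simp [h1, h2] <;>
    rw [enc_lt, enc_lt, enc_lt, enc_lt, enc_lt, enc_lt] <;> omega

/-- an own chord before an incoming chord -/
lemma cross_mix (hB : 2 * N + 2 ≤ B) (hkB : k ≤ B) {m p q e p' q' e' t x : ℕ} (hm : m < 3) (he : e < k)
    (he' : e' < k) (_hpq : p + q ≤ N) (hpq' : p' + q' ≤ N) (ht : p < t) (htN : t ≤ N)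
    (hx : 1 ≤ x) (hxq' : x ≤ q') (htx : t ≤ x) :
    Cross (ch B N ((m + 1) % 3) p q e t) (ch B N m p' q' e' (p' + q' + 1 - x)) := by
  have h2 : p' + q' + 1 - x ≤ p' + q' := by omega
  unfold Cross ch own oth
  interval_cases m <;> simp [h2] <;> split_ifs <;>
    rw [enc_lt, enc_lt, enc_lt, enc_lt, enc_lt, enc_lt] <;> omega

/-- a filler chord before a full chord of its family -/
lemma cross_fill (hB : 2 * N + 2 ≤ B) (hkB : k ≤ B) {m p q e p' q' e' t t' : ℕ} (hm : m < 3)
    (he : e < k) (he' : e' < k) (_hpq : p + q ≤ N) (hpq' : p' + q' ≤ N) (ht : p < t) (htt : t < t')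
    (ht' : t' ≤ p' + q') (hf : ¬ t ≤ p + q) :
    Cross (ch B N m p q e t) (ch B N m p' q' e' t') := by
  unfold Cross ch own oth
  interval_cases m <;> simp [ht', hf] <;>
    rw [enc_lt, enc_lt, enc_lt, enc_lt, enc_lt, enc_lt] <;> omega

/-- two full chords of a family in the wrong order -/
lemma cross_full (hB : 2 * N + 2 ≤ B) (hkB : k ≤ B) {m p q e p' q' e' t t' : ℕ} (hm : m < 3)
    (he : e < k) (he' : e' < k) (hpq : p + q ≤ N) (hpq' : p' + q' ≤ N) (ht : p < t) (htt : t < t')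
    (htf : t ≤ p + q) (ht' : t' ≤ p' + q') (hf : p + q + 1 - t ≤ p' + q' + 1 - t') :
    Cross (ch B N m p q e t) (ch B N m p' q' e' t') := by
  unfold Cross ch own oth
  interval_cases m <;> simp [ht', htf] <;>
    rw [enc_lt, enc_lt, enc_lt, enc_lt, enc_lt, enc_lt] <;> omega

/-- two chords of one element do not cross -/
lemma nc_same (hB : 2 * N + 2 ≤ B) (hkB : k ≤ B) {m p q e t t' : ℕ} (hm : m < 3) (he : e < k)
    (hpq : p + q ≤ N) (ht : p < t) (htN : t ≤ N) (ht' : p < t') (htN' : t' ≤ N) :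
    ¬ Cross (ch B N m p q e t) (ch B N m p q e t') := by
  unfold Cross ch own oth
  interval_cases m <;> simp <;> split_ifs <;> simp only [← not_lt] <;>
    rw [enc_lt, enc_lt, enc_lt, enc_lt, enc_lt, enc_lt] <;> omega

/-- chords of consecutive families in one class do not cross -/
lemma nc_next (hB : 2 * N + 2 ≤ B) (hkB : k ≤ B) {m p q r e e' t t' : ℕ} (hm : m < 3) (he : e < k)
    (he' : e' < k) (hpq : p + q ≤ N) (hqr : q + r ≤ N) (ht : p < t) (htN : t ≤ N)
    (ht' : q < t') (htN' : t' ≤ N) :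
    ¬ Cross (ch B N m p q e t) (ch B N ((m + 1) % 3) q r e' t') := by
  unfold Cross ch own oth
  interval_cases m <;> simp <;> split_ifs <;> simp only [← not_lt] <;>
    rw [enc_lt, enc_lt, enc_lt, enc_lt, enc_lt, enc_lt] <;> omega

lemma own_inj (hB : 2 * N + 2 ≤ B) (hkB : k ≤ B) {m p q e t m' p' q' e' t' : ℕ} (_hm : m < 3)
    (_hm' : m' < 3) (he : e < k)
    (he' : e' < k) (hpq : p + q ≤ N) (hpq' : p' + q' ≤ N) (ht : p < t) (htN : t ≤ N)
    (ht' : p' < t') (htN' : t' ≤ N) (h : own B m p q e t = own B m' p' q' e' t') :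
    m = m' ∧ e = e' ∧ t = t' := by
  revert h
  unfold own
  split_ifs <;> rw [enc_eq] <;> omega

lemma oth_inj (hB : 2 * N + 2 ≤ B) (hkB : k ≤ B) {m p q e t m' p' q' e' t' : ℕ} (_hm : m < 3)
    (_hm' : m' < 3) (he : e < k)
    (he' : e' < k) (hpq : p + q ≤ N) (hpq' : p' + q' ≤ N) (ht : p < t) (htN : t ≤ N)
    (ht' : p' < t') (htN' : t' ≤ N) (h : oth B N m p q e t = oth B N m' p' q' e' t') :
    m = m' ∧ e = e' ∧ t = t' := by
  revert h
  unfold oth
  split_ifs <;> rw [enc_eq] <;> omega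

lemma own_ne_oth (hB : 2 * N + 2 ≤ B) (hkB : k ≤ B) {m p q e t m' p' q' e' t' : ℕ} (_hm : m < 3)
    (_hm' : m' < 3) (he : e < k)
    (he' : e' < k) (hpq : p + q ≤ N) (hpq' : p' + q' ≤ N) (ht : p < t) (htN : t ≤ N)
    (ht' : p' < t') (htN' : t' ≤ N) : own B m p q e t ≠ oth B N m' p' q' e' t' := by
  unfold own oth
  split_ifs <;> rw [Ne, enc_eq] <;> omega

end cross

end Pool.Agent.Seg
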