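import Pool.Agent.Lib_helper79.Seg.Geo
import Pool.Agent.Lib_helper79.Seg.Fwd

set_option autoImplicit false

namespace Pool.Agent.Seg

open Finset

/-- Index triples `(m, e, t)` of the chords. -/
def trips (N k : ℕ) (a : ℕ → ℕ → ℕ) : List (ℕ × ℕ × ℕ) :=
  (List.range 3).flatMap fun m => (List.range k).flatMap fun e =>
    ((List.range (N + 1)).filter fun t => a m e < t).map fun t => (m, e, t)

/-- The chord with index triple `x`. -/
def chord (B N : ℕ) (a b : ℕ → ℕ → ℕ) (x : ℕ × ℕ × ℕ) : ℕ × ℕ :=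
  ch B N x.1 (a x.1 x.2.1) (b x.1 x.2.1) x.2.1 x.2.2

/-- The list of all chords. -/
def chords (B N k : ℕ) (a b : ℕ → ℕ → ℕ) : List (ℕ × ℕ) := (trips N k a).map (chord B N a b)

lemma mem_trips {N k : ℕ} {a : ℕ → ℕ → ℕ} {x : ℕ × ℕ × ℕ} :
    x ∈ trips N k a ↔ x.1 < 3 ∧ x.2.1 < k ∧ x.2.2 ≤ N ∧ a x.1 x.2.1 < x.2.2 := by
  obtain ⟨m, e, t⟩ := x
  simp only [trips, List.mem_flatMap, List.mem_range, List.mem_map, List.mem_filter,
    decide_eq_true_eq, Prod.mk.injEq]
  constructor
  · rintro ⟨m', hm, e', he, t', ⟨ht, ha⟩, rfl, rfl, rfl⟩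
    exact ⟨hm, he, by omega, ha⟩
  · rintro ⟨hm, he, ht, ha⟩
    exact ⟨m, hm, e, he, t, ⟨by omega, ha⟩, rfl, rfl, rfl⟩

lemma trips_nodup (N k : ℕ) (a : ℕ → ℕ → ℕ) : (trips N k a).Nodup := by
  unfold trips
  rw [List.nodup_flatMap]
  refine ⟨fun m _ => ?_, ?_⟩
  · rw [List.nodup_flatMap]
    refine ⟨fun e _ => ?_, ?_⟩
    · apply List.Nodup.map
      · intro t t' h
        simpa using h
      · exact List.Nodup.filter _ List.nodup_range
    · apply List.Nodup.pairwise_of_forall_ne List.nodup_range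
      intro e _ e' _ hne
      rw [Function.onFun, List.disjoint_left]
      intro x hx hx'
      simp only [List.mem_map, List.mem_filter] at hx hx'
      obtain ⟨t, _, rfl⟩ := hx
      obtain ⟨t', _, h⟩ := hx'
      simp only [Prod.mk.injEq] at h
      exact hne h.2.1.symm
  · apply List.Nodup.pairwise_of_forall_ne List.nodup_range
    intro m _ m' _ hne
    rw [Function.onFun, List.disjoint_left]
    intro x hx hx'
    simp only [List.mem_flatMap, List.mem_map, List.mem_filter] at hx hx'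
    obtain ⟨e, _, t, _, rfl⟩ := hx
    obtain ⟨e', _, t', _, h⟩ := hx'
    simp only [Prod.mk.injEq] at h
    exact hne h.1.symm

section main

variable {B N k : ℕ} {a b : ℕ → ℕ → ℕ}

lemma chord_cases (m p q e t : ℕ) :
    (ch B N m p q e t = (own B m p q e t, oth B N m p q e t)) ∨
    (ch B N m p q e t = (oth B N m p q e t, own B m p q e t)) := by
  unfold ch
  split_ifs
  · right; rfl
  · left; rfl

lemma chord_sep (hB : 2 * N + 2 ≤ B) (hkB : k ≤ B) (hN : ∀ m < 3, ∀ e < k, a m e + b m e ≤ N)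
    {x y : ℕ × ℕ × ℕ} (hx : x ∈ trips N k a) (hy : y ∈ trips N k a) (hne : x ≠ y) :
    (chord B N a b x).1 ≠ (chord B N a b y).1 ∧ (chord B N a b x).1 ≠ (chord B N a b y).2 ∧
    (chord B N a b x).2 ≠ (chord B N a b y).1 ∧ (chord B N a b x).2 ≠ (chord B N a b y).2 := by
  obtain ⟨m, e, t⟩ := x
  obtain ⟨m', e', t'⟩ := y
  rw [mem_trips] at hx hy
  simp only at hx hy
  obtain ⟨hm, he, ht, ha⟩ := hx
  obtain ⟨hm', he', ht', ha'⟩ := hy
  have n1 := hN m hm e he
  have n2 := hN m' hm' e' he'
  have i1 := own_inj hB hkB hm hm' he he' n1 n2 ha ht ha' ht'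
  have i2 := oth_inj hB hkB hm hm' he he' n1 n2 ha ht ha' ht'
  have i3 := own_ne_oth hB hkB hm hm' he he' n1 n2 ha ht ha' ht'
  have i4 := own_ne_oth hB hkB hm' hm he' he n2 n1 ha' ht' ha ht
  have hne' : ¬ (m = m' ∧ e = e' ∧ t = t') := by
    rintro ⟨rfl, rfl, rfl⟩
    exact hne rfl
  have j1 : own B m (a m e) (b m e) e t ≠ own B m' (a m' e') (b m' e') e' t' := fun h => hne' (i1 h)
  have j2 : oth B N m (a m e) (b m e) e t ≠ oth B N m' (a m' e') (b m' e') e' t' :=
    fun h => hne' (i2 h)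
  unfold chord
  simp only
  rcases chord_cases (B := B) (N := N) m (a m e) (b m e) e t with h | h <;>
    rcases chord_cases (B := B) (N := N) m' (a m' e') (b m' e') e' t' with h' | h' <;>
    rw [h, h'] <;> simp only
  · exact ⟨j1, i3, i4.symm, j2⟩
  · exact ⟨i3, j1, j2, i4.symm⟩
  · exact ⟨i4.symm, j2, j1, i3⟩
  · exact ⟨j2, i4.symm, i3, j1⟩

lemma chord_lt (hB : 2 * N + 2 ≤ B) (hkB : k ≤ B) (hN : ∀ m < 3, ∀ e < k, a m e + b m e ≤ N)
    {x : ℕ × ℕ × ℕ} (hx : x ∈ trips N k a) : (chord B N a b x).1 < (chord B N a b x).2 := by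
  rw [mem_trips] at hx
  exact ch_lt hB hkB hx.1 hx.2.1 (hN _ hx.1 _ hx.2.1) hx.2.2.2 hx.2.2.1

/-- The chords form a chord set. -/
theorem chords_isChordSet (hB : 2 * N + 2 ≤ B) (hkB : k ≤ B)
    (hN : ∀ m < 3, ∀ e < k, a m e + b m e ≤ N) : IsChordSet (chords B N k a b) := by
  constructor
  · intro c hc
    unfold chords at hc
    rw [List.mem_map] at hc
    obtain ⟨x, hx, rfl⟩ := hc
    exact chord_lt hB hkB hN hx
  · unfold chords
    rw [List.flatMap_map, List.nodup_flatMap]
    constructor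
    · intro x hx
      have := chord_lt hB hkB hN hx
      simp
      omega
    · apply List.Nodup.pairwise_of_forall_ne (trips_nodup N k a)
      intro x hx y hy hne
      have := chord_sep hB hkB hN hx hy hne
      rw [Function.onFun, List.disjoint_left]
      intro z hz hz'
      simp only [List.mem_cons, List.not_mem_nil, or_false] at hz hz'
      rcases hz with hz | hz <;> rcases hz' with hz' | hz' <;> omega

/-- The chords form a 3-segment graph. -/
theorem chords_isSegment (hB : 2 * N + 2 ≤ B) (hkB : k ≤ B)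
    (hN : ∀ m < 3, ∀ e < k, a m e + b m e ≤ N) : IsSegment 3 (chords B N k a b) := by
  refine ⟨fun i => ((enc B (2 * i.val + 2) 0 0 0 : ℕ) : ℝ) - 1 / 2, ?_⟩
  have half : ∀ u v : ℕ, u < v → (u : ℝ) < (v : ℝ) - 1 / 2 := by
    intro u v h
    have : (u : ℝ) + 1 ≤ v := by exact_mod_cast h
    linarith
  have half' : ∀ u v : ℕ, v ≤ u → (v : ℝ) - 1 / 2 < (u : ℝ) := by
    intro u v h
    have : (v : ℝ) ≤ u := by exact_mod_cast h
    linarith
  intro c hc
  unfold chords at hc
  rw [List.mem_map] at hc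
  obtain ⟨⟨m, e, t⟩, hx, rfl⟩ := hc
  rw [mem_trips] at hx
  simp only at hx
  obtain ⟨hm, he, ht, ha⟩ := hx
  have n1 := hN m hm e he
  have key : ∃ i : Fin 2, (chord B N a b (m, e, t)).1 < enc B (2 * i.val + 2) 0 0 0 ∧
      enc B (2 * i.val + 2) 0 0 0 ≤ (chord B N a b (m, e, t)).2 := by
    unfold chord ch own oth
    simp only [← not_lt]
    interval_cases m
    · refine ⟨0, ?_⟩
      simp only [Fin.isValue, Fin.val_zero]
      norm_num
      split_ifs <;> simp only [← not_lt] <;> rw [enc_lt, enc_lt] <;> omega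
    · refine ⟨1, ?_⟩
      simp only [Fin.isValue, Fin.val_one]
      norm_num
      split_ifs <;> simp only [← not_lt] <;> rw [enc_lt, enc_lt] <;> omega
    · refine ⟨1, ?_⟩
      simp only [Fin.isValue, Fin.val_one]
      norm_num
      split_ifs <;> simp only [← not_lt] <;> rw [enc_lt, enc_lt] <;> omega
  obtain ⟨i, h1, h2⟩ := key
  exact ⟨i, half _ _ h1, half' _ _ h2⟩

lemma chord_injOn (hB : 2 * N + 2 ≤ B) (hkB : k ≤ B) (hN : ∀ m < 3, ∀ e < k, a m e + b m e ≤ N) :
    Set.InjOn (chord B N a b) {x | x ∈ trips N k a} := by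
  intro x hx y hy h
  by_contra hne
  have := (chord_sep hB hkB hN hx hy hne).1
  rw [h] at this
  exact this rfl

lemma colourable_map {ι : Type} [Nonempty ι] {L : List ι} {g : ι → ℕ × ℕ} {k : ℕ}
    (hg : Set.InjOn g {x | x ∈ L}) :
    Colourable (L.map g) k ↔ ∃ F : ι → ℕ, (∀ x ∈ L, F x < k) ∧
      ∀ x ∈ L, ∀ y ∈ L, Cross (g x) (g y) → F x ≠ F y := by
  constructor
  · rintro ⟨f, h1, h2⟩
    refine ⟨fun x => f (g x), fun x hx => h1 _ (List.mem_map_of_mem hx), fun x hx y hy h => ?_⟩
    exact h2 _ (List.mem_map_of_mem hx) _ (List.mem_map_of_mem hy) h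
  · rintro ⟨F, h1, h2⟩
    refine ⟨fun c => F (Function.invFunOn g {x | x ∈ L} c), ?_, ?_⟩
    · intro c hc
      rw [List.mem_map] at hc
      obtain ⟨x, hx, rfl⟩ := hc
      simp only
      rw [hg.leftInvOn_invFunOn hx]
      exact h1 x hx
    · intro c hc d hd h
      rw [List.mem_map] at hc hd
      obtain ⟨x, hx, rfl⟩ := hc
      obtain ⟨y, hy, rfl⟩ := hd
      simp only
      rw [hg.leftInvOn_invFunOn hx, hg.leftInvOn_invFunOn hy]
      exact h2 x hx y hy h

lemma exists_bij {k : ℕ} {f g : ℕ → ℕ × ℕ}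
    (h : ∀ p, ((range k).filter (fun e => f e = p)).card = ((range k).filter (fun c => g c = p)).card) :
    ∃ τ : ℕ → ℕ, (∀ e < k, τ e < k ∧ g (τ e) = f e) ∧ ∀ e < k, ∀ e' < k, τ e = τ e' → e = e' := by
  classical
  have hc : ∀ p, Fintype.card {e : Fin k // f e = p} = Fintype.card {c : Fin k // g c = p} := by
    intro p
    have hf : ∀ f : ℕ → ℕ × ℕ, Fintype.card {e : Fin k // f e = p} =
        ((range k).filter (fun e => f e = p)).card := by
      intro f
      rw [Fintype.card_subtype]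
      refine card_bij (fun e _ => e.val) ?_ ?_ ?_
      · intro e he
        simp only [mem_filter, mem_univ, true_and] at he
        simp [he]
      · intro e _ e' _ h
        exact Fin.ext h
      · intro e he
        simp only [mem_filter, mem_range] at he
        exact ⟨⟨e, he.1⟩, by simp [he.2], rfl⟩
    rw [hf, hf, h]
  let E : Fin k ≃ Fin k := Equiv.ofFiberEquiv (f := fun e : Fin k => f e) (g := fun c : Fin k => g c)
    (fun p => Fintype.equivOfCardEq (hc p))
  have hE : ∀ e : Fin k, g (E e) = f e := fun e =>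
    Equiv.ofFiberEquiv_map (f := fun e : Fin k => f e) (g := fun c : Fin k => g c)
      (fun p => Fintype.equivOfCardEq (hc p)) e
  refine ⟨fun e => if he : e < k then (E ⟨e, he⟩).val else 0, ?_, ?_⟩
  · intro e he
    simp only [he, dif_pos]
    refine ⟨(E ⟨e, he⟩).isLt, ?_⟩
    exact hE ⟨e, he⟩
  · intro e he e' he' h
    simp only [he, he', dif_pos] at h
    have := E.injective (Fin.ext h)
    simpa using this

/-- The main equivalence: colouring the chord set with `k` colours is the same as finding `k`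
triples whose three projections to pairs are the three given families. -/
theorem colourable_iff (hB : 2 * N + 2 ≤ B) (hkB : k ≤ B)
    (hb : ∀ m < 3, ∀ e < k, 1 ≤ b m e)
    (hN : ∀ m < 3, ∀ e < k, a m e + b m e ≤ N)
    (hmar : ∀ m < 3, ∀ x, ((range k).filter (fun e => a ((m + 1) % 3) e < x)).card =
      ((range k).filter (fun e => b m e < x)).card) :
    Colourable (chords B N k a b) k ↔ ∃ Θ : ℕ → ℕ → ℕ, ∀ m < 3, ∀ v w,
      ((range k).filter (fun e => a m e = v ∧ b m e = w)).card =
      ((range k).filter (fun c => Θ m c = v ∧ Θ ((m + 1) % 3) c = w)).card := by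
  unfold chords
  rw [colourable_map (chord_injOn hB hkB hN)]
  constructor
  · rintro ⟨F, h1, h2⟩
    apply Good.table (F := fun m e t => F (m, e, t)) (N := N)
    have cr : ∀ m < 3, ∀ m' < 3, ∀ e < k, ∀ e' < k, ∀ t t', t ≤ N → t' ≤ N → a m e < t → a m' e' < t' →
        Cross (ch B N m (a m e) (b m e) e t) (ch B N m' (a m' e') (b m' e') e' t') →
        F (m, e, t) ≠ F (m', e', t') := by
      intro m hm m' hm' e he e' he' t t' ht ht' ha ha' hcr
      exact h2 _ (mem_trips.2 ⟨hm, he, ht, ha⟩) _ (mem_trips.2 ⟨hm', he', ht', ha'⟩) hcr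
    refine ⟨hb, hN, hmar, ?_, ?_, ?_, ?_, ?_, ?_⟩
    · intro m hm e he t ha ht
      exact h1 _ (mem_trips.2 ⟨hm, he, ht, ha⟩)
    · intro m hm e he e' he' t ht ha ha' h
      by_contra hne
      exact cr m hm m hm e he e' he' t t ht ht ha ha'
        (cross_own hB hkB hm he he' (hN m hm e he) (hN m hm e' he') ha ha' ht hne) h
    · intro m hm e he e' he' x hx hxb hxb' h
      by_contra hne
      have n1 := hN m hm e he
      have n2 := hN m hm e' he'
      exact cr m hm m hm e he e' he' _ _ (by omega) (by omega) (by omega) (by omega)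
        (cross_inc hB hkB hm he he' (hN m hm e he) (hN m hm e' he') hx hxb hxb' hne) h
    · intro m hm e he e' he' t x ha ht hx hxb htx
      have n2 := hN m hm e' he'
      have hm' : (m + 1) % 3 < 3 := Nat.mod_lt _ (by norm_num)
      exact cr _ hm' m hm e he e' he' _ _ (by omega) (by omega) (by omega) (by omega)
        (cross_mix hB hkB hm he he' (hN _ hm' e he) (hN m hm e' he') ha ht hx hxb htx)
    · intro m hm e he e' he' t t' ha htt ht' ha' hf
      have n2 := hN m hm e' he'
      exact cr m hm m hm e he e' he' _ _ (by omega) (by omega) (by omega) (by omega)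
        (cross_fill hB hkB hm he he' (hN m hm e he) (hN m hm e' he') ha htt ht' hf)
    · intro m hm e he e' he' t t' ha htt htf ha' ht' hf
      have n2 := hN m hm e' he'
      exact cr m hm m hm e he e' he' _ _ (by omega) (by omega) (by omega) (by omega)
        (cross_full hB hkB hm he he' (hN m hm e he) (hN m hm e' he') ha htt htf ht' hf)
  · rintro ⟨Θ, hΘ⟩
    have hex : ∀ m < 3, ∃ τ : ℕ → ℕ, (∀ e < k, τ e < k ∧ (Θ m (τ e), Θ ((m + 1) % 3) (τ e)) =
        (a m e, b m e)) ∧ ∀ e < k, ∀ e' < k, τ e = τ e' → e = e' := by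
      intro m hm
      apply exists_bij (f := fun e => (a m e, b m e)) (g := fun c => (Θ m c, Θ ((m + 1) % 3) c))
      rintro ⟨v, w⟩
      simp only [Prod.mk.injEq]
      exact hΘ m hm v w
    choose! τ hτ1 hτ2 using hex
    refine ⟨fun x => τ x.1 x.2.1, ?_, ?_⟩
    · intro x hx
      rw [mem_trips] at hx
      exact (hτ1 _ hx.1 _ hx.2.1).1
    · rintro ⟨m, e, t⟩ hx ⟨m', e', t'⟩ hy hcr heq
      rw [mem_trips] at hx hy
      simp only at hx hy heq
      obtain ⟨hm, he, ht, ha⟩ := hx
      obtain ⟨hm', he', ht', ha'⟩ := hy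
      have n1 := hN m hm e he
      have n2 := hN m' hm' e' he'
      have p1 := (hτ1 m hm e he).2
      have p2 := (hτ1 m' hm' e' he').2
      rw [Prod.mk.injEq] at p1 p2
      unfold chord at hcr
      simp only at hcr
      have hcases : m = m' ∨ m' = (m + 1) % 3 ∨ m = (m' + 1) % 3 := by omega
      rcases hcases with rfl | h | h
      · have := hτ2 m hm e he e' he' heq
        subst this
        exact nc_same hB hkB hm he n1 ha ht ha' ht' hcr
      · have hq : a m' e' = b m e := by
          rw [← p1.2, heq, ← p2.1, h]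
        rw [hq, h] at hcr
        rw [hq] at ha' n2
        rw [h] at n2
        exact nc_next hB hkB hm he he' n1 n2 ha ht ha' ht' hcr
      · have hq : a m e = b m' e' := by
          rw [← p2.2, ← heq, ← p1.1, h]
        rw [hq, h] at hcr
        rw [hq] at ha n1
        rw [h] at n1
        exact nc_next hB hkB hm' he' he n2 n1 ha' ht' ha ht hcr.symm

end main

end Pool.Agent.Seg
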