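import Pool.Agent.Lib_helper79.Seg.Gadget

set_option autoImplicit false

namespace Pool.Agent.Seg

open List

/-- Labels of the list edges: `(κ, v, c)` with `κ < 5`. -/
def lab (n M : ℕ) (inc : ℕ → ℕ → Bool) : List (ℕ × ℕ × ℕ) :=
  ((range n).flatMap fun v => (range M).flatMap fun c =>
    [(0, v, c), (1, v, c), (2, v, c)] ++ if inc v c then [(3, v, c)] else []) ++
  (range M).map fun c => (4, 0, c)

/-- First end of a label. -/
def lP (M : ℕ) (l : ℕ × ℕ × ℕ) : ℕ × ℕ × ℕ :=
  if l.1 = 1 then (5, l.2.1, (l.2.2 + 1) % M) else if l.1 = 3 ∨ l.1 = 4 then (6, 0, l.2.2)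
  else (5, l.2.1, l.2.2)

/-- Second end of a label. -/
def lQ (inc : ℕ → ℕ → Bool) (l : ℕ × ℕ × ℕ) : ℕ × ℕ × ℕ :=
  if l.1 = 4 ∨ (l.1 = 2 ∧ inc l.2.1 l.2.2) then (6, 0, l.2.2) else (5, l.2.1, l.2.2)

/-- Forbidden colour of a label. -/
def lm (l : ℕ × ℕ × ℕ) : ℕ := if l.1 = 0 then 3 else if l.1 = 1 ∨ l.1 = 4 then 2 else 1

/-- Number of variables in the row `c`. -/
def deg (n : ℕ) (inc : ℕ → ℕ → Bool) (c : ℕ) : ℕ := ((range n).filter fun v => inc v c).length

/-- Prescribed colours at the base indices. -/
def base (n M : ℕ) (inc : ℕ → ℕ → Bool) (r : ℕ → ℕ) : List ((ℕ × ℕ × ℕ) × ℕ) :=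
  ((range n).flatMap fun v => (range M).flatMap fun c =>
    [((5, v, c), 1), ((5, v, c), 2), ((5, v, c), 3)]) ++
  (range M).flatMap fun c => replicate (r c) ((6, 0, c), 2) ++
    replicate (deg n inc c + 1 - r c) ((6, 0, c), 3)

lemma flatMap_comm_perm {α β γ : Type} (l1 : List α) (l2 : List β) (f : α → β → List γ) :
    (l1.flatMap fun a => l2.flatMap (f a)) ~ l2.flatMap fun b => l1.flatMap fun a => f a b := by
  induction l1 with
  | nil => simp
  | cons a l1 ih =>
    rw [flatMap_cons]
    simp only [flatMap_cons]
    exact ((Perm.refl _).append ih).trans (flatMap_append_perm _ _ _)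

lemma shift_perm (M : ℕ) : ((range M).map fun c => (c + 1) % M) ~ range M := by
  rcases Nat.eq_zero_or_pos M with rfl | hM
  · simp
  · apply List.Perm.symm
    apply (List.subperm_of_subset nodup_range _).perm_of_length_le (by simp)
    intro c hc
    rw [mem_range] at hc
    rw [mem_map]
    rcases Nat.eq_zero_or_pos c with rfl | h
    · exact ⟨M - 1, by rw [mem_range]; omega, by rw [Nat.sub_add_cancel hM, Nat.mod_self]⟩
    · exact ⟨c - 1, by rw [mem_range]; omega, by
        rw [Nat.sub_add_cancel h, Nat.mod_eq_of_lt hc]⟩

section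

variable {β : Type} (n M : ℕ) (inc : ℕ → ℕ → Bool) (y : ℕ × ℕ × ℕ → β)

/-- Normal form of the second ends. -/
lemma nfQ : ((lab n M inc).map fun l => (lQ inc l, y l)) ~
    ((range n).flatMap fun v => (range M).flatMap fun c =>
      [((5, v, c), y (0, v, c)), ((5, v, c), y (1, v, c)),
        ((5, v, c), if inc v c then y (3, v, c) else y (2, v, c))]) ++
    (range M).flatMap fun c => ((range n).flatMap fun v =>
      if inc v c then [((6, 0, c), y (2, v, c))] else []) ++ [((6, 0, c), y (4, 0, c))] := by
  unfold lab
  rw [map_append, map_flatMap]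
  have h1 : ((range n).flatMap fun v => ((range M).flatMap fun c =>
      [(0, v, c), (1, v, c), (2, v, c)] ++ if inc v c then [(3, v, c)] else []).map
        fun l => (lQ inc l, y l)) ~
      ((range n).flatMap fun v => (range M).flatMap fun c =>
      [((5, v, c), y (0, v, c)), ((5, v, c), y (1, v, c)),
        ((5, v, c), if inc v c then y (3, v, c) else y (2, v, c))]) ++
      (range n).flatMap fun v => (range M).flatMap fun c =>
        if inc v c then [((6, 0, c), y (2, v, c))] else [] := by
    refine Perm.trans ?_ (flatMap_append_perm _ _ _).symm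
    apply Perm.flatMap_left
    intro v _
    rw [map_flatMap]
    refine Perm.trans ?_ (flatMap_append_perm _ _ _).symm
    apply Perm.flatMap_left
    intro c _
    rcases hi : inc v c with _ | _
    · simp [lQ, hi]
    · simp only [lQ, hi, if_true, map_append, map_cons, map_nil, cons_append, nil_append]
      norm_num
      exact Perm.swap _ _ _
  refine (Perm.append h1 (Perm.refl _)).trans ?_
  rw [append_assoc]
  apply Perm.append_left
  refine (Perm.append (flatMap_comm_perm _ _ _) (Perm.refl _)).trans ?_
  rw [map_map, map_eq_flatMap]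
  refine (flatMap_append_perm _ _ _).trans ?_
  apply Perm.flatMap_left
  intro c _
  simp [lQ]

/-- Normal form of the first ends. -/
lemma nfP : ((lab n M inc).map fun l => (lP M l, y l)) ~
    ((range n).flatMap fun v => (range M).flatMap fun c =>
      [((5, v, c), y (0, v, c)), ((5, v, c), y (1, v, (c + M - 1) % M)),
        ((5, v, c), y (2, v, c))]) ++
    (range M).flatMap fun c => ((range n).flatMap fun v =>
      if inc v c then [((6, 0, c), y (3, v, c))] else []) ++ [((6, 0, c), y (4, 0, c))] := by
  unfold lab
  rw [map_append, map_flatMap]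
  have h1 : ((range n).flatMap fun v => ((range M).flatMap fun c =>
      [(0, v, c), (1, v, c), (2, v, c)] ++ if inc v c then [(3, v, c)] else []).map
        fun l => (lP M l, y l)) ~
      ((range n).flatMap fun v => (range M).flatMap fun c =>
      [((5, v, c), y (0, v, c)), ((5, v, c), y (1, v, (c + M - 1) % M)),
        ((5, v, c), y (2, v, c))]) ++
      (range n).flatMap fun v => (range M).flatMap fun c =>
        if inc v c then [((6, 0, c), y (3, v, c))] else [] := by
    refine Perm.trans ?_ (flatMap_append_perm _ _ _).symm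
    apply Perm.flatMap_left
    intro v _
    rw [map_flatMap]
    have h2 : ((range M).flatMap fun c => ([(0, v, c), (1, v, c), (2, v, c)] ++
        if inc v c then [(3, v, c)] else []).map fun l => (lP M l, y l)) ~
        ((range M).flatMap fun c => [((5, v, (c + 1) % M), y (1, v, c))]) ++
        ((range M).flatMap fun c => [((5, v, c), y (0, v, c)), ((5, v, c), y (2, v, c))] ++
          if inc v c then [((6, 0, c), y (3, v, c))] else []) := by
      refine Perm.trans ?_ (flatMap_append_perm _ _ _).symm
      apply Perm.flatMap_left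
      intro c _
      rcases hi : inc v c with _ | _
      · simp only [lP, hi, map_cons, map_nil, cons_append, nil_append]
        norm_num
        exact Perm.swap _ _ _
      · simp only [lP, hi, if_true, map_append, map_cons, map_nil, cons_append, nil_append]
        norm_num
        exact Perm.swap _ _ _
    have h3 : ((range M).flatMap fun c => [((5, v, (c + 1) % M), y (1, v, c))]) ~
        ((range M).flatMap fun c => [((5, v, c), y (1, v, (c + M - 1) % M))]) := by
      have := (shift_perm M).map (fun c => (((5, v, c) : ℕ × ℕ × ℕ), y (1, v, (c + M - 1) % M)))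
      rw [map_map] at this
      rw [← map_eq_flatMap, ← map_eq_flatMap]
      refine Perm.trans ?_ this
      have e : (range M).map (fun c => (((5, v, (c + 1) % M) : ℕ × ℕ × ℕ), y (1, v, c))) =
          (range M).map ((fun c => (((5, v, c) : ℕ × ℕ × ℕ), y (1, v, (c + M - 1) % M))) ∘
            fun c => (c + 1) % M) := by
        apply map_congr_left
        intro c hc
        rw [mem_range] at hc
        simp only [Function.comp]
        have : ((c + 1) % M + M - 1) % M = c := by
          rcases Nat.lt_or_ge (c + 1) M with h | h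
          · rw [Nat.mod_eq_of_lt h]
            have : c + 1 + M - 1 = c + M := by omega
            rw [this, Nat.add_mod_right, Nat.mod_eq_of_lt hc]
          · have : c + 1 = M := by omega
            rw [this, Nat.mod_self]
            have : 0 + M - 1 = c := by omega
            rw [this, Nat.mod_eq_of_lt hc]
        rw [this]
      rw [e]
    refine h2.trans ((Perm.append h3 (Perm.refl _)).trans ?_)
    refine (flatMap_append_perm _ _ _).trans ?_
    refine Perm.trans ?_ (flatMap_append_perm _ _ _).symm
    apply Perm.flatMap_left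
    intro c _
    simp only [cons_append, nil_append]
    exact Perm.swap _ _ _
  refine (Perm.append h1 (Perm.refl _)).trans ?_
  rw [append_assoc]
  apply Perm.append_left
  refine (Perm.append (flatMap_comm_perm _ _ _) (Perm.refl _)).trans ?_
  rw [map_map, map_eq_flatMap]
  refine (flatMap_append_perm _ _ _).trans ?_
  apply Perm.flatMap_left
  intro c _
  simp [lP]

end

lemma flatMap_ite_replicate {β : Type} (l : List ℕ) (p : ℕ → Bool) (b : β) :
    (l.flatMap fun v => if p v then [b] else []) = replicate (l.filter p).length b := by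
  induction l with
  | nil => simp
  | cons v l ih =>
    rw [flatMap_cons, ih]
    rcases h : p v with _ | _
    · simp [h]
    · simp [h, replicate_succ]

lemma flatMap_ite_pair {β : Type} (l : List ℕ) (p q : ℕ → Bool) (b b' : β) :
    (l.flatMap fun v => if p v then [if q v then b else b'] else []) ~
      replicate (l.filter fun v => p v && q v).length b ++
      replicate (l.filter fun v => p v && !q v).length b' := by
  induction l with
  | nil => simp
  | cons v l ih =>
    rw [flatMap_cons]
    refine (Perm.append_left _ ih).trans ?_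
    rcases h : p v with _ | _
    · simp [h]
    · rcases h' : q v with _ | _
      · simp [h, h', replicate_succ]
        exact perm_middle.symm
      · simp [h, h', replicate_succ]

lemma filter_split (l : List ℕ) (p q : ℕ → Bool) :
    (l.filter fun v => p v && q v).length + (l.filter fun v => p v && !q v).length =
      (l.filter p).length := by
  induction l with
  | nil => simp
  | cons v l ih =>
    rcases h : p v with _ | _
    · simp [h, ih]
    · rcases h' : q v with _ | _ <;> simp [h, h'] <;> omega

lemma lab_nodup (n M : ℕ) (inc : ℕ → ℕ → Bool) : (lab n M inc).Nodup := by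
  unfold lab
  rw [nodup_append]
  refine ⟨?_, ?_, ?_⟩
  · rw [nodup_flatMap]
    refine ⟨fun v _ => ?_, ?_⟩
    · rw [nodup_flatMap]
      refine ⟨fun c _ => ?_, ?_⟩
      · rcases h : inc v c with _ | _ <;> simp
      · apply List.Nodup.pairwise_of_forall_ne nodup_range
        intro c _ c' _ hne
        rw [Function.onFun, disjoint_left]
        intro x hx hx'
        rcases h : inc v c with _ | _ <;> rcases h' : inc v c' with _ | _ <;>
          simp [h, h'] at hx hx' <;> aesop
    · apply List.Nodup.pairwise_of_forall_ne nodup_range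
      intro v _ v' _ hne
      rw [Function.onFun, disjoint_left]
      intro x hx hx'
      rw [mem_flatMap] at hx hx'
      obtain ⟨c, _, hc⟩ := hx
      obtain ⟨c', _, hc'⟩ := hx'
      rcases h : inc v c with _ | _ <;> rcases h' : inc v' c' with _ | _ <;>
          simp [h, h'] at hc hc' <;> aesop
  · apply List.Nodup.map _ nodup_range
    intro c c' h
    simpa using h
  · intro x hx y hy hxy
    subst hxy
    rw [mem_map] at hy
    obtain ⟨c, _, rfl⟩ := hy
    rw [mem_flatMap] at hx
    obtain ⟨v, _, hx⟩ := hx
    rw [mem_flatMap] at hx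
    obtain ⟨c', _, hx⟩ := hx
    rcases h : inc v c' with _ | _ <;> simp [h] at hx

lemma lab_bound {n M : ℕ} {inc : ℕ → ℕ → Bool} {l : ℕ × ℕ × ℕ} (h : l ∈ lab n M inc) :
    l.1 < 5 ∧ l.2.1 ≤ n ∧ l.2.2 < M := by
  unfold lab at h
  rw [mem_append] at h
  rcases h with h | h
  · simp only [mem_flatMap, mem_range] at h
    obtain ⟨v, hv, c, hc, h⟩ := h
    rcases hi : inc v c with _ | _ <;> simp [hi] at h
    · rcases h with rfl | rfl | rfl <;> simp <;> omega
    · rcases h with rfl | rfl | rfl | rfl <;> simp <;> omega
  · rw [mem_map] at h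
    obtain ⟨c, hc, rfl⟩ := h
    rw [mem_range] at hc
    simp [hc]

lemma lP_bound {n M : ℕ} {inc : ℕ → ℕ → Bool} {l : ℕ × ℕ × ℕ} (h : l ∈ lab n M inc) :
    5 ≤ (lP M l).1 ∧ (lP M l).1 ≤ 6 ∧ (lP M l).2.1 ≤ n ∧ (lP M l).2.2 < M := by
  have := lab_bound h
  have h2 : (l.2.2 + 1) % M < M := Nat.mod_lt _ (by omega)
  unfold lP
  split_ifs <;> simp <;> omega

lemma lQ_bound {n M : ℕ} {inc : ℕ → ℕ → Bool} {l : ℕ × ℕ × ℕ} (h : l ∈ lab n M inc) :
    5 ≤ (lQ inc l).1 ∧ (lQ inc l).1 ≤ 6 ∧ (lQ inc l).2.1 ≤ n ∧ (lQ inc l).2.2 < M := by
  have := lab_bound h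
  unfold lQ
  split_ifs <;> simp <;> omega

lemma base_bound {n M : ℕ} {inc : ℕ → ℕ → Bool} {r : ℕ → ℕ} {p : (ℕ × ℕ × ℕ) × ℕ}
    (h : p ∈ base n M inc r) :
    5 ≤ p.1.1 ∧ p.1.1 ≤ 6 ∧ p.1.2.1 ≤ n ∧ p.1.2.2 < M ∧ 1 ≤ p.2 ∧ p.2 ≤ 3 := by
  unfold base at h
  rw [mem_append] at h
  rcases h with h | h
  · simp only [mem_flatMap, mem_range, mem_cons, not_mem_nil, or_false] at h
    obtain ⟨v, hv, c, hc, h⟩ := h
    rcases h with rfl | rfl | rfl <;> simp <;> omega
  · simp only [mem_flatMap, mem_range, mem_append, mem_replicate] at h
    obtain ⟨c, hc, h⟩ := h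
    rcases h with ⟨_, rfl⟩ | ⟨_, rfl⟩ <;> simp <;> omega

lemma lm_cases (l : ℕ × ℕ × ℕ) : lm l = 1 ∨ lm l = 2 ∨ lm l = 3 := by
  unfold lm
  split_ifs <;> simp

lemma three_cases {x y z : ℕ} (hx : x = 1 ∨ x = 2) (hy : y = 1 ∨ y = 3) (hz : z = 2 ∨ z = 3)
    (h : [x, y, z] ~ [1, 2, 3]) : (x = 1 ∧ y = 3 ∧ z = 2) ∨ (x = 2 ∧ y = 1 ∧ z = 3) := by
  rcases hx with rfl | rfl <;> rcases hy with rfl | rfl <;> rcases hz with rfl | rfl <;>
    first
    | exact Or.inl ⟨rfl, rfl, rfl⟩
    | exact Or.inr ⟨rfl, rfl, rfl⟩
    | exact absurd h (by decide)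

/-- The local condition at a variable index extracted from a permutation. -/
lemma extract {n M : ℕ} {f : ℕ → ℕ → List ((ℕ × ℕ × ℕ) × ℕ)} {g : ℕ → List ((ℕ × ℕ × ℕ) × ℕ)}
    {v0 c0 : ℕ} (hv : v0 < n) (hc : c0 < M)
    (hf : ∀ v c, ∀ p ∈ f v c, p.1 = (5, v, c)) (hg : ∀ c, ∀ p ∈ g c, p.1 = (6, 0, c)) :
    (((range n).flatMap fun v => (range M).flatMap fun c => f v c) ++
      (range M).flatMap g).filter (fun p => decide (p.1 = (5, v0, c0))) = f v0 c0 := by
  rw [filter_append]
  have h2 : ((range M).flatMap g).filter (fun p => decide (p.1 = (5, v0, c0))) = [] := by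
    rw [filter_eq_nil_iff]
    intro p hp
    rw [mem_flatMap] at hp
    obtain ⟨c, _, hp⟩ := hp
    rw [hg c p hp]
    simp
  rw [h2, append_nil, filter_flatMap_one nodup_range (mem_range.2 hv),
    filter_flatMap_one nodup_range (mem_range.2 hc), filter_eq_self]
  · intro p hp
    simpa using hf v0 c0 p hp
  · intro c _ hne
    rw [filter_eq_nil_iff]
    intro p hp
    rw [hf v0 c p hp]
    simpa using hne
  · intro v _ hne
    rw [filter_eq_nil_iff]
    intro p hp
    rw [mem_flatMap] at hp
    obtain ⟨c, _, hp⟩ := hp
    rw [hf v c p hp]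
    simp
    intro h
    exact (hne h).elim

/-- The local condition at a row index extracted from a permutation. -/
lemma extract' {n M : ℕ} {f : ℕ → ℕ → List ((ℕ × ℕ × ℕ) × ℕ)} {g : ℕ → List ((ℕ × ℕ × ℕ) × ℕ)}
    {c0 : ℕ} (hc : c0 < M)
    (hf : ∀ v c, ∀ p ∈ f v c, p.1 = (5, v, c)) (hg : ∀ c, ∀ p ∈ g c, p.1 = (6, 0, c)) :
    (((range n).flatMap fun v => (range M).flatMap fun c => f v c) ++
      (range M).flatMap g).filter (fun p => decide (p.1 = (6, 0, c0))) = g c0 := by
  rw [filter_append]
  have h2 : ((range n).flatMap fun v => (range M).flatMap fun c => f v c).filter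
      (fun p => decide (p.1 = (6, 0, c0))) = [] := by
    rw [filter_eq_nil_iff]
    intro p hp
    rw [mem_flatMap] at hp
    obtain ⟨v, _, hp⟩ := hp
    rw [mem_flatMap] at hp
    obtain ⟨c, _, hp⟩ := hp
    rw [hf v c p hp]
    simp
  rw [h2, nil_append, filter_flatMap_one nodup_range (mem_range.2 hc), filter_eq_self]
  · intro p hp
    simpa using hg c0 p hp
  · intro c _ hne
    rw [filter_eq_nil_iff]
    intro p hp
    rw [hg c p hp]
    simpa using hne

variable {n M : ℕ} {inc : ℕ → ℕ → Bool} {r : ℕ → ℕ}

/-- Colourings of the list-edge graph are solutions of the 0/1 system. -/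
theorem labels_iff (hr : ∀ c < M, r c ≤ deg n inc c + 1) :
    (∃ x : ℕ × ℕ × ℕ → ℕ, (∀ l ∈ lab n M inc, x l ∈ cols (lm l)) ∧
      ((lab n M inc).map fun l => (lQ inc l, x l)) ~ base n M inc r ∧
      ((lab n M inc).map fun l => (lP M l, x l)) ~ base n M inc r) ↔
    ∃ X : ℕ → Bool, ∀ c < M, ((range n).filter fun v => inc v c && X v).length = r c := by
  constructor
  · rintro ⟨x, hx, hQ, hP⟩
    have hQ' := (nfQ n M inc x).symm.trans hQ
    have hP' := (nfP n M inc x).symm.trans hP
    unfold base at hQ' hP'
    have mem0 : ∀ v < n, ∀ c < M, (0, v, c) ∈ lab n M inc ∧ (1, v, c) ∈ lab n M inc ∧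
        (2, v, c) ∈ lab n M inc ∧ (inc v c = true → (3, v, c) ∈ lab n M inc) := by
      intro v hv c hc
      unfold lab
      simp only [mem_append, mem_flatMap, mem_range]
      refine ⟨Or.inl ⟨v, hv, c, hc, by simp⟩, Or.inl ⟨v, hv, c, hc, by simp⟩,
        Or.inl ⟨v, hv, c, hc, by simp⟩, fun h => Or.inl ⟨v, hv, c, hc, by simp [h]⟩⟩
    have x0 : ∀ v < n, ∀ c < M, x (0, v, c) = 1 ∨ x (0, v, c) = 2 := by
      intro v hv c hc
      have := hx _ (mem0 v hv c hc).1
      simpa [lm, cols] using this
    have x1 : ∀ v < n, ∀ c < M, x (1, v, c) = 1 ∨ x (1, v, c) = 3 := by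
      intro v hv c hc
      have := hx _ (mem0 v hv c hc).2.1
      simpa [lm, cols] using this
    have x2 : ∀ v < n, ∀ c < M, x (2, v, c) = 2 ∨ x (2, v, c) = 3 := by
      intro v hv c hc
      have := hx _ (mem0 v hv c hc).2.2.1
      simpa [lm, cols] using this
    have x3 : ∀ v < n, ∀ c < M, inc v c = true → x (3, v, c) = 2 ∨ x (3, v, c) = 3 := by
      intro v hv c hc hi
      have := hx _ ((mem0 v hv c hc).2.2.2 hi)
      simpa [lm, cols] using this
    have rQ : ∀ v < n, ∀ c < M, [x (0, v, c), x (1, v, c),
        if inc v c then x (3, v, c) else x (2, v, c)] ~ [1, 2, 3] := by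
      intro v hv c hc
      have := hQ'.filter (fun p => decide (p.1 = (5, v, c)))
      rw [extract hv hc, extract hv hc] at this
      · have := this.map Prod.snd
        simpa using this
      · intro v c p hp
        simp only [mem_cons, not_mem_nil, or_false] at hp
        rcases hp with rfl | rfl | rfl <;> rfl
      · intro c p hp
        simp only [mem_append, mem_replicate] at hp
        rcases hp with ⟨_, rfl⟩ | ⟨_, rfl⟩ <;> rfl
      · intro v c p hp
        simp only [mem_cons, not_mem_nil, or_false] at hp
        rcases hp with rfl | rfl | rfl <;> rfl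
      · intro c p hp
        simp only [mem_append, mem_flatMap, mem_cons, not_mem_nil, or_false] at hp
        rcases hp with ⟨v, _, hp⟩ | rfl
        · split_ifs at hp
          · simp at hp
            rw [hp]
          · simp at hp
        · rfl
    have rP : ∀ v < n, ∀ c < M, [x (0, v, c), x (1, v, (c + M - 1) % M), x (2, v, c)] ~
        [1, 2, 3] := by
      intro v hv c hc
      have := hP'.filter (fun p => decide (p.1 = (5, v, c)))
      rw [extract hv hc, extract hv hc] at this
      · have := this.map Prod.snd
        simpa using this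
      · intro v c p hp
        simp only [mem_cons, not_mem_nil, or_false] at hp
        rcases hp with rfl | rfl | rfl <;> rfl
      · intro c p hp
        simp only [mem_append, mem_replicate] at hp
        rcases hp with ⟨_, rfl⟩ | ⟨_, rfl⟩ <;> rfl
      · intro v c p hp
        simp only [mem_cons, not_mem_nil, or_false] at hp
        rcases hp with rfl | rfl | rfl <;> rfl
      · intro c p hp
        simp only [mem_append, mem_flatMap, mem_cons, not_mem_nil, or_false] at hp
        rcases hp with ⟨v, _, hp⟩ | rfl
        · split_ifs at hp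
          · simp at hp
            rw [hp]
          · simp at hp
        · rfl
    have q1 : ∀ v < n, ∀ c < M, (x (0, v, c) = 1 ↔ x (1, v, c) = 3) := by
      intro v hv c hc
      have h2 : (if inc v c then x (3, v, c) else x (2, v, c)) = 2 ∨
          (if inc v c then x (3, v, c) else x (2, v, c)) = 3 := by
        split_ifs with h
        · exact x3 v hv c hc h
        · exact x2 v hv c hc
      rcases three_cases (x0 v hv c hc) (x1 v hv c hc) h2 (rQ v hv c hc) with h | h <;> omega
    have q2 : ∀ v < n, ∀ c < M, (x (0, v, c) = 1 ↔ x (1, v, (c + M - 1) % M) = 3) ∧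
        (x (0, v, c) = 1 ↔ x (2, v, c) = 2) := by
      intro v hv c hc
      have hc' : (c + M - 1) % M < M := Nat.mod_lt _ (by omega)
      rcases three_cases (x0 v hv c hc) (x1 v hv _ hc') (x2 v hv c hc) (rP v hv c hc) with h | h <;>
        omega
    have q3 : ∀ v < n, ∀ c < M, (x (0, v, c) = 1 ↔ x (0, v, 0) = 1) := by
      intro v hv c
      induction c with
      | zero => intro _; exact Iff.rfl
      | succ c ih =>
        intro hc
        have h1 := ih (by omega)
        have h2 := (q2 v hv (c + 1) hc).1
        have h3 : (c + 1 + M - 1) % M = c := by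
          have : c + 1 + M - 1 = c + M := by omega
          rw [this, Nat.add_mod_right, Nat.mod_eq_of_lt (by omega)]
        rw [h3] at h2
        rw [h2, ← q1 v hv c (by omega)]
        exact h1
    refine ⟨fun v => decide (x (0, v, 0) = 1), fun c hc => ?_⟩
    have := hQ'.filter (fun p => decide (p.1 = (6, 0, c)))
    rw [extract' hc, extract' hc] at this
    · have h4 : x (4, 0, c) = 1 ∨ x (4, 0, c) = 3 := by
        have hm : (4, 0, c) ∈ lab n M inc := by
          unfold lab
          rw [mem_append, mem_map]
          exact Or.inr ⟨c, mem_range.2 hc, rfl⟩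
        have := hx _ hm
        simpa [lm, cols] using this
      have := this.count_eq ((6, 0, c), 2)
      rw [count_append, count_append, count_replicate, count_replicate] at this
      simp only [beq_self_eq_true, if_true] at this
      have e3 : (((6, 0, c), 3) == (((6, 0, c), 2) : (ℕ × ℕ × ℕ) × ℕ)) = false := by simp
      have e4 : count (((6, 0, c), 2) : (ℕ × ℕ × ℕ) × ℕ) [((6, 0, c), x (4, 0, c))] = 0 := by
        rw [count_singleton]
        rcases h4 with h4 | h4 <;> simp [h4]
      rw [e3, e4] at this
      simp only [Bool.false_eq_true, if_false, add_zero] at this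
      rw [← this]
      rw [count_flatMap]
      have e5 : ∀ l : List ℕ, (∀ v ∈ l, v < n) →
          (l.filter fun v => inc v c && decide (x (0, v, 0) = 1)).length =
          (map (count (((6, 0, c), 2) : (ℕ × ℕ × ℕ) × ℕ) ∘ fun v =>
            if inc v c then [((6, 0, c), x (2, v, c))] else []) l).sum := by
        intro l
        induction l with
        | nil => intro _; simp
        | cons v l ih =>
          intro hl
          have hv : v < n := hl v mem_cons_self
          rw [map_cons, sum_cons, ← ih (fun v' hv' => hl v' (mem_cons_of_mem _ hv'))]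
          rw [filter_cons]
          simp only [Function.comp]
          rcases hi : inc v c with _ | _
          · simp
          · have h5 := (q2 v hv c hc).2
            have h6 := q3 v hv c hc
            by_cases h7 : x (0, v, 0) = 1
            · have h8 : x (2, v, c) = 2 := h5.1 (h6.2 h7)
              simp [h7, h8]
              omega
            · have h8 : x (2, v, c) ≠ 2 := fun h => h7 (h6.1 (h5.2 h))
              simp [h7, h8]
      exact e5 _ (fun v hv => mem_range.1 hv)
    · intro v c p hp
      simp only [mem_cons, not_mem_nil, or_false] at hp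
      rcases hp with rfl | rfl | rfl <;> rfl
    · intro c p hp
      simp only [mem_append, mem_replicate] at hp
      rcases hp with ⟨_, rfl⟩ | ⟨_, rfl⟩ <;> rfl
    · intro v c p hp
      simp only [mem_cons, not_mem_nil, or_false] at hp
      rcases hp with rfl | rfl | rfl <;> rfl
    · intro c p hp
      simp only [mem_append, mem_flatMap, mem_cons, not_mem_nil, or_false] at hp
      rcases hp with ⟨v, _, hp⟩ | rfl
      · split_ifs at hp
        · simp at hp
          rw [hp]
        · simp at hp
      · rfl
  · rintro ⟨X, hX⟩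
    set x : ℕ × ℕ × ℕ → ℕ := fun l => if l.1 = 0 then (if X l.2.1 then 1 else 2) else
      if l.1 = 1 then (if X l.2.1 then 3 else 1) else if l.1 = 4 then 3 else
      (if X l.2.1 then 2 else 3) with hxdef
    have y0 : ∀ v c, x (0, v, c) = if X v then 1 else 2 := fun v c => by simp [hxdef]
    have y1 : ∀ v c, x (1, v, c) = if X v then 3 else 1 := fun v c => by simp [hxdef]
    have y2 : ∀ v c, x (2, v, c) = if X v then 2 else 3 := fun v c => by simp [hxdef]
    have y3 : ∀ v c, x (3, v, c) = if X v then 2 else 3 := fun v c => by simp [hxdef]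
    have y4 : ∀ v c, x (4, v, c) = 3 := fun v c => by simp [hxdef]
    have yD : ∀ c < M, ((range n).flatMap fun v =>
        if inc v c then [(((6, 0, c) : ℕ × ℕ × ℕ), if X v then 2 else 3)] else []) ++
          [((6, 0, c), 3)] ~
        replicate (r c) ((6, 0, c), 2) ++ replicate (deg n inc c + 1 - r c) ((6, 0, c), 3) := by
      intro c hc
      have h1 := flatMap_ite_pair (range n) (fun v => inc v c) X (((6, 0, c) : ℕ × ℕ × ℕ), 2)
        (((6, 0, c) : ℕ × ℕ × ℕ), 3)
      have h2 := filter_split (range n) (fun v => inc v c) X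
      have h3 : (((range n).flatMap fun v =>
        if inc v c then [(((6, 0, c) : ℕ × ℕ × ℕ), if X v then 2 else 3)] else [])) =
        ((range n).flatMap fun v =>
        if inc v c then [if X v then (((6, 0, c) : ℕ × ℕ × ℕ), 2) else (((6, 0, c) : ℕ × ℕ × ℕ), 3)] else []) := by
        apply flatMap_congr
        intro v _
        rcases X v <;> rfl
      rw [h3]
      refine (Perm.append h1 (Perm.refl _)).trans ?_
      rw [append_assoc, hX c hc]
      apply Perm.append_left
      rw [← replicate_succ']
      have h4 : (filter (fun v => inc v c && !X v) (range n)).length + 1 = deg n inc c + 1 - r c := by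
        unfold deg
        rw [← h2, hX c hc]
        omega
      rw [h4]
    refine ⟨x, ?_, ?_, ?_⟩
    · intro l hl
      have hb := (lab_bound hl).1
      obtain ⟨κ, v, c⟩ := l
      simp only at hb
      interval_cases κ
      · rw [y0]; rcases X v <;> simp [lm, cols]
      · rw [y1]; rcases X v <;> simp [lm, cols]
      · rw [y2]; rcases X v <;> simp [lm, cols]
      · rw [y3]; rcases X v <;> simp [lm, cols]
      · rw [y4]; simp [lm, cols]
    · refine (nfQ n M inc x).trans ?_
      unfold base
      apply Perm.append
      · apply Perm.flatMap_left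
        intro v _
        apply Perm.flatMap_left
        intro c _
        rw [y0, y1, y2, y3, ite_self]
        rcases X v
        · exact Perm.swap _ _ _
        · exact Perm.cons _ (Perm.swap _ _ _)
      · apply Perm.flatMap_left
        intro c hc
        rw [y4]
        simp only [y2]
        exact yD c (mem_range.1 hc)
    · refine (nfP n M inc x).trans ?_
      unfold base
      apply Perm.append
      · apply Perm.flatMap_left
        intro v _
        apply Perm.flatMap_left
        intro c _
        rw [y0, y1, y2]
        rcases X v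
        · exact Perm.swap _ _ _
        · exact Perm.cons _ (Perm.swap _ _ _)
      · apply Perm.flatMap_left
        intro c hc
        rw [y4]
        simp only [y3]
        exact yD c (mem_range.1 hc)

/-- Degrees agree. -/
theorem margins (hr : ∀ c < M, r c ≤ deg n inc c + 1) :
    ((lab n M inc).map (lQ inc)) ~ (base n M inc r).map Prod.fst ∧
    ((lab n M inc).map (lP M)) ~ (base n M inc r).map Prod.fst := by
  have key : ∀ c < M, ((range n).flatMap fun v =>
        if inc v c then [(((6, 0, c) : ℕ × ℕ × ℕ), ())] else []) ++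
          [((6, 0, c), ())] =
        replicate (r c) ((6, 0, c), ()) ++ replicate (deg n inc c + 1 - r c) ((6, 0, c), ()) := by
    intro c hc
    rw [flatMap_ite_replicate, ← replicate_succ', ← replicate_add]
    congr 1
    have := hr c hc
    unfold deg at this ⊢
    omega
  have hb : (base n M inc r).map (fun p => (p.1, ())) =
      ((range n).flatMap fun v => (range M).flatMap fun c =>
        [((5, v, c), ()), ((5, v, c), ()), ((5, v, c), ())]) ++
      (range M).flatMap fun c => replicate (r c) ((6, 0, c), ()) ++
        replicate (deg n inc c + 1 - r c) ((6, 0, c), ()) := by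
    unfold base
    simp [map_flatMap]
  constructor
  · have h := nfQ n M inc (fun _ => ())
    have h2 : ((lab n M inc).map fun l => (lQ inc l, ())) ~
        (base n M inc r).map (fun p => (p.1, ())) := by
      refine h.trans ?_
      rw [hb]
      apply Perm.append
      · simp
      · apply Perm.flatMap_left
        intro c hc
        rw [key c (mem_range.1 hc)]
    have := h2.map Prod.fst
    simpa [Function.comp_def] using this
  · have h := nfP n M inc (fun _ => ())
    have h2 : ((lab n M inc).map fun l => (lP M l, ())) ~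
        (base n M inc r).map (fun p => (p.1, ())) := by
      refine h.trans ?_
      rw [hb]
      apply Perm.append
      · simp
      · apply Perm.flatMap_left
        intro c hc
        rw [key c (mem_range.1 hc)]
    have := h2.map Prod.fst
    simpa [Function.comp_def] using this

end Pool.Agent.Seg
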