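import Pool.Agent.Lib_helper79.Seg.Main
import Pool.Agent.Lib_helper79.Seg.System

set_option autoImplicit false

namespace Pool.Agent.Seg

open List

/-- The family number `m`. -/
def fam (U V W : List (ℕ × ℕ)) (m : ℕ) : List (ℕ × ℕ) := if m = 0 then U else if m = 1 then V else W

/-- The chord set of three lists of pairs of numbers, all at most `X`. -/
def segChords (X : ℕ) (U V W : List (ℕ × ℕ)) : List (ℕ × ℕ) :=
  chords (4 * X + 2 + U.length) (2 * X) U.length (fun m e => ((fam U V W m).getD e (0, 0)).1)
    (fun m e => ((fam U V W m).getD e (0, 0)).2)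

lemma card_filter_getD {α : Type} (l : List α) (d : α) (p : α → Bool) :
    ((Finset.range l.length).filter (fun e => p (l.getD e d))).card = (l.filter p).length := by
  induction l with
  | nil => simp
  | cons x l ih =>
    rw [length_cons, Finset.range_eq_Ico, ← Finset.Ico_union_Ico_eq_Ico (Nat.zero_le 1) (by omega),
      Finset.filter_union, Finset.card_union_of_disjoint]
    · have h1 : ((Finset.Ico 1 (l.length + 1)).filter (fun e => p ((x :: l).getD e d))).card =
          ((Finset.range l.length).filter (fun e => p (l.getD e d))).card := by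
        symm
        refine Finset.card_bij (fun e _ => e + 1) ?_ ?_ ?_
        · intro e he
          simp only [Finset.mem_filter, Finset.mem_range, Finset.mem_Ico] at he ⊢
          refine ⟨by omega, ?_⟩
          rw [getD_cons_succ]
          exact he.2
        · intro e _ e' _ h
          omega
        · intro e he
          simp only [Finset.mem_filter, Finset.mem_range, Finset.mem_Ico] at he
          refine ⟨e - 1, ?_, by omega⟩
          simp only [Finset.mem_filter, Finset.mem_range]
          refine ⟨by omega, ?_⟩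
          have : e = (e - 1) + 1 := by omega
          rw [this, getD_cons_succ] at he
          exact he.2
      rw [h1, ih]
      have h2 : Finset.Ico 0 1 = {0} := by rfl
      rw [h2, Finset.filter_singleton, getD_cons_zero, filter_cons]
      rcases p x <;> simp
      omega
    · rw [Finset.disjoint_left]
      intro e he he'
      simp only [Finset.mem_filter, Finset.mem_Ico] at he he'
      omega

lemma fam_length {U V W : List (ℕ × ℕ)} (h1 : V.length = U.length) (h2 : W.length = U.length)
    (m : ℕ) : (fam U V W m).length = U.length := by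
  unfold fam
  split_ifs <;> simp [h1, h2]

lemma card_fam {U V W : List (ℕ × ℕ)} (h1 : V.length = U.length) (h2 : W.length = U.length)
    (m : ℕ) (p : ℕ × ℕ → Bool) :
    ((Finset.range U.length).filter (fun e => p ((fam U V W m).getD e (0, 0)))).card =
      ((fam U V W m).filter p).length := by
  rw [← card_filter_getD (fam U V W m) (0, 0) p, fam_length h1 h2]

theorem segChords_iff {X : ℕ} {U V W : List (ℕ × ℕ)}
    (hU : ∀ u ∈ U, 1 ≤ u.2 ∧ u.1 ≤ X ∧ u.2 ≤ X) (hV : ∀ u ∈ V, 1 ≤ u.2 ∧ u.1 ≤ X ∧ u.2 ≤ X)
    (hW : ∀ u ∈ W, 1 ≤ u.2 ∧ u.1 ≤ X ∧ u.2 ≤ X)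
    (m1 : U.map Prod.snd ~ V.map Prod.fst) (m2 : V.map Prod.snd ~ W.map Prod.fst)
    (m3 : W.map Prod.snd ~ U.map Prod.fst) :
    IsChordSet (segChords X U V W) ∧ IsSegment 3 (segChords X U V W) ∧
      (Colourable (segChords X U V W) U.length ↔ Table U V W) := by
  have l1 : V.length = U.length := by simpa using m1.length_eq.symm
  have l2 : W.length = U.length := by
    have := m2.length_eq
    simp at this
    omega
  have hfam : ∀ m, ∀ u ∈ fam U V W m, 1 ≤ u.2 ∧ u.1 ≤ X ∧ u.2 ≤ X := by
    intro m
    unfold fam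
    split_ifs
    · exact hU
    · exact hV
    · exact hW
  have hget : ∀ m, ∀ e < U.length, (fam U V W m).getD e (0, 0) ∈ fam U V W m := by
    intro m e he
    have : e < (fam U V W m).length := by rw [fam_length l1 l2]; exact he
    rw [getD_eq_getElem _ _ this]
    exact getElem_mem _
  have hB : 2 * (2 * X) + 2 ≤ 4 * X + 2 + U.length := by omega
  have hkB : U.length ≤ 4 * X + 2 + U.length := by omega
  have hb : ∀ m < 3, ∀ e < U.length, 1 ≤ ((fam U V W m).getD e (0, 0)).2 :=
    fun m _ e he => (hfam m _ (hget m e he)).1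
  have hN : ∀ m < 3, ∀ e < U.length,
      ((fam U V W m).getD e (0, 0)).1 + ((fam U V W m).getD e (0, 0)).2 ≤ 2 * X := by
    intro m _ e he
    have := hfam m _ (hget m e he)
    omega
  have hmap : ∀ m < 3, (fam U V W m).map Prod.snd ~ (fam U V W ((m + 1) % 3)).map Prod.fst := by
    intro m hm
    interval_cases m
    · simpa [fam] using m1
    · simpa [fam] using m2
    · simpa [fam] using m3
  have hmar : ∀ m < 3, ∀ x,
      ((Finset.range U.length).filter
        (fun e => ((fam U V W ((m + 1) % 3)).getD e (0, 0)).1 < x)).card =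
      ((Finset.range U.length).filter (fun e => ((fam U V W m).getD e (0, 0)).2 < x)).card := by
    intro m hm x
    have e1 := card_fam (U := U) (V := V) (W := W) l1 l2 ((m + 1) % 3) (fun u => decide (u.1 < x))
    have e2 := card_fam (U := U) (V := V) (W := W) l1 l2 m (fun u => decide (u.2 < x))
    simp only [decide_eq_true_eq] at e1 e2
    rw [e1, e2]
    have h := (hmap m hm).filter (fun y => decide (y < x))
    rw [filter_map, filter_map] at h
    have := h.length_eq
    simp only [length_map] at this
    exact this.symm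
  refine ⟨chords_isChordSet hB hkB hN, chords_isSegment hB hkB hN, ?_⟩
  unfold segChords
  rw [colourable_iff hB hkB hb hN hmar]
  have cnt : ∀ m v w, ((Finset.range U.length).filter
      (fun e => ((fam U V W m).getD e (0, 0)).1 = v ∧ ((fam U V W m).getD e (0, 0)).2 = w)).card =
      (fam U V W m).count (v, w) := by
    intro m v w
    have e1 := card_fam (U := U) (V := V) (W := W) l1 l2 m (fun u => u == (v, w))
    have e2 : ∀ u : ℕ × ℕ, ((u == (v, w)) = true) ↔ (u.1 = v ∧ u.2 = w) := by
      intro u
      rw [beq_iff_eq, Prod.ext_iff]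
    simp only [e2] at e1
    rw [e1, count_eq_length_filter]
  simp only [cnt]
  constructor
  · rintro ⟨Θ, hΘ⟩
    have cnt2 : ∀ m m' v w, ((Finset.range U.length).filter
        (fun c => Θ m c = v ∧ Θ m' c = w)).card =
        ((range U.length).map (fun c => (Θ m c, Θ m' c))).count (v, w) := by
      intro m m' v w
      rw [count_eq_length_filter, filter_map, length_map]
      have : ∀ (l : List ℕ), l.Nodup → (l.toFinset.filter (fun c => Θ m c = v ∧ Θ m' c = w)).card =
          (filter ((fun x => x == (v, w)) ∘ fun c => (Θ m c, Θ m' c)) l).length := by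
        intro l hl
        rw [← toFinset_card_of_nodup (hl.filter _), toFinset_filter]
        congr 1
        apply Finset.filter_congr
        intro c _
        simp [Prod.ext_iff]
      have h := this (range U.length) nodup_range
      rw [← h]
      congr 2
      ext c
      simp
    have key : ∀ m < 3, ((range U.length).map (fun c => (Θ m c, Θ ((m + 1) % 3) c))) ~
        fam U V W m := by
      intro m hm
      rw [perm_iff_count]
      rintro ⟨v, w⟩
      rw [← cnt2, hΘ m hm v w]
    refine ⟨(range U.length).map fun c => (Θ 0 c, Θ 1 c, Θ 2 c), ?_, ?_, ?_⟩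
    · rw [map_map]
      exact key 0 (by norm_num)
    · rw [map_map]
      exact key 1 (by norm_num)
    · rw [map_map]
      exact key 2 (by norm_num)
  · rintro ⟨T, h1, h2, h3⟩
    have hT : T.length = U.length := by simpa using h1.length_eq
    refine ⟨fun m c => if m = 0 then (T.getD c (0, 0, 0)).1 else if m = 1 then
      (T.getD c (0, 0, 0)).2.1 else (T.getD c (0, 0, 0)).2.2, ?_⟩
    intro m hm v w
    have e0 := fun p => card_filter_getD T (0, 0, 0) p
    rw [hT] at e0
    interval_cases m
    · have e1 := e0 (fun t => ((t.1, t.2.1) : ℕ × ℕ) == (v, w))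
      simp only [beq_iff_eq, Prod.mk.injEq] at e1
      norm_num [-getD_eq_getElem?_getD]
      rw [e1]
      have : fam U V W 0 = U := by simp [fam]
      rw [this, ← h1.count_eq, count_eq_length_filter, filter_map, length_map]
      rfl
    · have e1 := e0 (fun t => ((t.2.1, t.2.2) : ℕ × ℕ) == (v, w))
      simp only [beq_iff_eq, Prod.mk.injEq] at e1
      norm_num [-getD_eq_getElem?_getD]
      rw [e1]
      have : fam U V W 1 = V := by simp [fam]
      rw [this, ← h2.count_eq, count_eq_length_filter, filter_map, length_map]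
      rfl
    · have e1 := e0 (fun t => ((t.2.2, t.1) : ℕ × ℕ) == (v, w))
      simp only [beq_iff_eq, Prod.mk.injEq] at e1
      norm_num [-getD_eq_getElem?_getD]
      rw [e1]
      have : fam U V W 2 = W := by simp [fam]
      rw [this, ← h3.count_eq, count_eq_length_filter, filter_map, length_map]
      rfl

/-! ### From 0/1 systems to chord sets -/

/-- Number of a structured index. -/
def num (n M : ℕ) (l : ℕ × ℕ × ℕ) : ℕ := (l.1 * (n + 1) + l.2.1) * (M + 1) + l.2.2 + 1

/-- Family `U` of a system. -/
def sysU (n M : ℕ) (inc : ℕ → ℕ → Bool) : List (ℕ × ℕ) :=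
  (gU (lab n M inc) id (lP M) (lQ inc)).map fun u => (num n M u.1, num n M u.2)

/-- Family `V` of a system. -/
def sysV (n M : ℕ) (inc : ℕ → ℕ → Bool) (r : ℕ → ℕ) : List (ℕ × ℕ) :=
  (gV (lab n M inc) id lm (base n M inc r)).map fun u => (num n M u.1, u.2)

/-- Family `W` of a system. -/
def sysW (n M : ℕ) (inc : ℕ → ℕ → Bool) (r : ℕ → ℕ) : List (ℕ × ℕ) :=
  (gW (lab n M inc) id lm (base n M inc r)).map fun u => (u.1, num n M u.2)

/-- The chord set of a system. -/
def sysChords (n M : ℕ) (inc : ℕ → ℕ → Bool) (r : ℕ → ℕ) : List (ℕ × ℕ) :=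
  segChords (7 * (n + 1) * (M + 1)) (sysU n M inc) (sysV n M inc r) (sysW n M inc r)

/-- The number of colours of a system. -/
def sysK (n M : ℕ) (inc : ℕ → ℕ → Bool) : ℕ := (sysU n M inc).length

lemma num_inj {n M : ℕ} {l l' : ℕ × ℕ × ℕ} (h1 : l.2.1 ≤ n) (h2 : l.2.2 < M) (h1' : l'.2.1 ≤ n)
    (h2' : l'.2.2 < M) (h : num n M l = num n M l') : l = l' := by
  unfold num at h
  have h3 : (l.1 * (n + 1) + l.2.1) * (M + 1) + l.2.2 = (l'.1 * (n + 1) + l'.2.1) * (M + 1) + l'.2.2 := by
    omega
  rw [two_eq (by omega) (by omega), two_eq (by omega) (by omega)] at h3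
  obtain ⟨⟨a, b⟩, c⟩ := h3
  ext
  · exact a
  · exact b
  · exact c

lemma num_le {n M : ℕ} {l : ℕ × ℕ × ℕ} (h0 : l.1 ≤ 6) (h1 : l.2.1 ≤ n) (h2 : l.2.2 < M) :
    num n M l ≤ 7 * (n + 1) * (M + 1) := by
  unfold num
  have h3 : l.1 * (n + 1) + l.2.1 + 1 ≤ 7 * (n + 1) := by nlinarith
  have h4 : (l.1 * (n + 1) + l.2.1 + 1) * (M + 1) ≤ 7 * (n + 1) * (M + 1) :=
    Nat.mul_le_mul_right _ h3
  nlinarith

theorem sysChords_iff {n M : ℕ} {inc : ℕ → ℕ → Bool} {r : ℕ → ℕ}
    (hr : ∀ c < M, r c ≤ deg n inc c + 1) :
    IsChordSet (sysChords n M inc r) ∧ IsSegment 3 (sysChords n M inc r) ∧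
    (Colourable (sysChords n M inc r) (sysK n M inc) ↔
      ∃ X : ℕ → Bool, ∀ c < M, ((range n).filter fun v => inc v c && X v).length = r c) := by
  classical
  -- the indices that occur
  set S : Set (ℕ × ℕ × ℕ) := {l | l.1 ≤ 6 ∧ l.2.1 ≤ n ∧ l.2.2 < M} with hS
  have bE : ∀ l ∈ lab n M inc, l ∈ S := fun l hl => by
    have := lab_bound hl
    exact ⟨by omega, this.2.1, this.2.2⟩
  have bP : ∀ l ∈ lab n M inc, lP M l ∈ S := fun l hl => (lP_bound hl).2
  have bQ : ∀ l ∈ lab n M inc, lQ inc l ∈ S := fun l hl => (lQ_bound hl).2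
  have bB : ∀ p ∈ base n M inc r, p.1 ∈ S := fun p hp => by
    have := base_bound hp
    exact ⟨by omega, by omega, by omega⟩
  have sU : ∀ u ∈ gU (lab n M inc) id (lP M) (lQ inc), u.1 ∈ S ∧ u.2 ∈ S := by
    intro u hu
    unfold gU at hu
    rw [mem_flatMap] at hu
    obtain ⟨l, hl, hu⟩ := hu
    simp only [mem_cons, not_mem_nil, or_false, id] at hu
    rcases hu with rfl | rfl | rfl
    · exact ⟨bP l hl, bE l hl⟩
    · exact ⟨bE l hl, bE l hl⟩
    · exact ⟨bE l hl, bQ l hl⟩
  have sV : ∀ u ∈ gV (lab n M inc) id lm (base n M inc r), u.1 ∈ S ∧ 1 ≤ u.2 ∧ u.2 ≤ 3 := by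
    intro u hu
    unfold gV at hu
    rw [mem_append] at hu
    rcases hu with hu | hu
    · rw [mem_flatMap] at hu
      obtain ⟨l, hl, hu⟩ := hu
      rw [mem_map] at hu
      obtain ⟨c, hc, rfl⟩ := hu
      refine ⟨bE l hl, ?_⟩
      simp only
      unfold cols at hc
      split_ifs at hc <;> simp at hc <;> omega
    · exact ⟨bB u hu, (base_bound hu).2.2.2.2⟩
  have sW : ∀ u ∈ gW (lab n M inc) id lm (base n M inc r), u.2 ∈ S ∧ 1 ≤ u.1 ∧ u.1 ≤ 3 := by
    intro u hu
    unfold gW at hu
    rw [mem_map] at hu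
    obtain ⟨u, hu, rfl⟩ := hu
    exact sV u hu
  have num_pos : ∀ l, 1 ≤ num n M l := fun l => by unfold num; omega
  have X3 : 3 ≤ 7 * (n + 1) * (M + 1) := by
    have : 1 * 1 ≤ (n + 1) * (M + 1) := Nat.mul_le_mul (by omega) (by omega)
    nlinarith
  have hU' : ∀ u ∈ sysU n M inc, 1 ≤ u.2 ∧ u.1 ≤ 7 * (n + 1) * (M + 1) ∧
      u.2 ≤ 7 * (n + 1) * (M + 1) := by
    intro u hu
    unfold sysU at hu
    rw [mem_map] at hu
    obtain ⟨u, hu, rfl⟩ := hu
    have := sU u hu
    exact ⟨num_pos _, num_le this.1.1 this.1.2.1 this.1.2.2, num_le this.2.1 this.2.2.1 this.2.2.2⟩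
  have hV' : ∀ u ∈ sysV n M inc r, 1 ≤ u.2 ∧ u.1 ≤ 7 * (n + 1) * (M + 1) ∧
      u.2 ≤ 7 * (n + 1) * (M + 1) := by
    intro u hu
    unfold sysV at hu
    rw [mem_map] at hu
    obtain ⟨u, hu, rfl⟩ := hu
    have := sV u hu
    exact ⟨this.2.1, num_le this.1.1 this.1.2.1 this.1.2.2, this.2.2.trans X3⟩
  have hW' : ∀ u ∈ sysW n M inc r, 1 ≤ u.2 ∧ u.1 ≤ 7 * (n + 1) * (M + 1) ∧
      u.2 ≤ 7 * (n + 1) * (M + 1) := by
    intro u hu
    unfold sysW at hu
    rw [mem_map] at hu
    obtain ⟨u, hu, rfl⟩ := hu
    have := sW u hu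
    exact ⟨num_pos _, this.2.2.trans X3, num_le this.1.1 this.1.2.1 this.1.2.2⟩
  have mar := margins (n := n) (M := M) (inc := inc) (r := r) hr
  -- structured margins
  have g1 : (gU (lab n M inc) id (lP M) (lQ inc)).map Prod.snd ~
      (gV (lab n M inc) id lm (base n M inc r)).map Prod.fst := by
    unfold gU gV
    rw [map_append, map_flatMap, map_flatMap]
    simp only [map_cons, map_nil, id, map_map]
    have a1 : ((lab n M inc).flatMap fun l => [l, l, lQ inc l]) ~
        ((lab n M inc).flatMap fun l => [l, l]) ++ (lab n M inc).flatMap fun l => [lQ inc l] := by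
      refine Perm.trans ?_ (flatMap_append_perm _ _ _).symm
      simp
    refine a1.trans (Perm.append ?_ ?_)
    · apply Perm.flatMap_left
      intro l _
      unfold cols
      split_ifs <;> simp
    · rw [← map_eq_flatMap]
      exact mar.1
  have g3 : (gU (lab n M inc) id (lP M) (lQ inc)).map Prod.fst ~
      (gV (lab n M inc) id lm (base n M inc r)).map Prod.fst := by
    unfold gU gV
    rw [map_append, map_flatMap, map_flatMap]
    simp only [map_cons, map_nil, id, map_map]
    have a1 : ((lab n M inc).flatMap fun l => [lP M l, l, l]) ~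
        ((lab n M inc).flatMap fun l => [l, l]) ++ (lab n M inc).flatMap fun l => [lP M l] := by
      refine Perm.trans ?_ (flatMap_append_perm _ _ _).symm
      apply Perm.flatMap_left
      intro l _
      have := perm_append_comm (l₁ := [lP M l]) (l₂ := [l, l])
      simpa using this
    refine a1.trans (Perm.append ?_ ?_)
    · apply Perm.flatMap_left
      intro l _
      unfold cols
      split_ifs <;> simp
    · rw [← map_eq_flatMap]
      exact mar.2
  have m1 : (sysU n M inc).map Prod.snd ~ (sysV n M inc r).map Prod.fst := by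
    have := g1.map (num n M)
    unfold sysU sysV
    rw [map_map, map_map]
    rw [map_map, map_map] at this
    exact this
  have m2 : (sysV n M inc r).map Prod.snd ~ (sysW n M inc r).map Prod.fst := by
    unfold sysV sysW gW
    rw [map_map, map_map, map_map]
    exact Perm.refl _
  have m3 : (sysW n M inc r).map Prod.snd ~ (sysU n M inc).map Prod.fst := by
    have := (g3.map (num n M)).symm
    unfold sysW sysU gW
    rw [map_map, map_map, map_map]
    rw [map_map, map_map] at this
    exact this
  have main := segChords_iff hU' hV' hW' m1 m2 m3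
  refine ⟨main.1, main.2.1, ?_⟩
  unfold sysChords sysK
  rw [main.2.2]
  have inj : Set.InjOn (num n M) S := by
    intro l hl l' hl' h
    exact num_inj hl.2.1 hl.2.2 hl'.2.1 hl'.2.2 h
  have inv : ∀ l ∈ S, Function.invFunOn (num n M) S (num n M l) = l :=
    fun l hl => inj.leftInvOn_invFunOn hl
  unfold sysU sysV sysW
  rw [table_map (g := Function.invFunOn (num n M) S)
    (fun u hu => ⟨inv _ (sU u hu).1, inv _ (sU u hu).2⟩) (fun u hu => inv _ (sV u hu).1)
    (fun u hu => inv _ (sW u hu).1)]
  rw [gadget_iff (ε := id) (lab_nodup n M inc) (fun l _ l' _ h => h) ?_ ?_ ?_ (fun l _ => lm_cases l)]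
  · exact labels_iff hr
  · intro l hl l' hl' h
    have h1 := lP_bound hl
    have h2 := lab_bound hl'
    rw [h] at h1
    simp only [id] at h1
    omega
  · intro l hl l' hl' h
    have h1 := lQ_bound hl
    have h2 := lab_bound hl'
    rw [h] at h1
    simp only [id] at h1
    omega
  · intro l hl p hp h
    have h1 := base_bound hp
    have h2 := lab_bound hl
    rw [h] at h1
    simp only [id] at h1
    omega

end Pool.Agent.Seg
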